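import Pool.Agent.Lib.MP_9cc147_pr.Cx.K0

/-! Geometry of the tiles: closed squares, white noise and energy under the lattice moves. -/

open scoped Classical Topology ComplexConjugate
open Finset MeasureTheory ProbabilityTheory Filter

noncomputable section
namespace Pool.Agent.Lib.MP_9cc147_pr.Cx

theorem jg_n (q : Par) (b : ℕ × ℕ) : q.n b = q.L * q.m b 0 := by
  simp only [Par.n, Par.m, Nat.sub_zero]
  ring

theorem jg_l (q : Par) : q.l 0 = q.L := by simp [Par.l]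

theorem jg_box {m : ℕ} {B : P} : B ∈ box m ↔ (0 ≤ B.1 ∧ B.1 < m) ∧ 0 ≤ B.2 ∧ B.2 < m := by
  simp [box]

theorem jg_cell {L : ℕ} {B x : P} : x ∈ cell L B ↔
    (B.1 * L ≤ x.1 ∧ x.1 < (B.1 + 1) * L) ∧ B.2 * L ≤ x.2 ∧ x.2 < (B.2 + 1) * L := by
  simp [cell]

theorem jg_fat {L : ℕ} {B x : P} : x ∈ fat L 0 B ↔
    (B.1 * L ≤ x.1 ∧ x.1 ≤ (B.1 + 1) * L) ∧ B.2 * L ≤ x.2 ∧ x.2 ≤ (B.2 + 1) * L := by
  simp [fat]

theorem jg_sqr {n : ℕ} {p : P} : p ∈ sqr n ↔ (0 ≤ p.1 ∧ p.1 ≤ n) ∧ 0 ≤ p.2 ∧ p.2 ≤ n := by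
  simp [sqr]

theorem jg_inn {n : ℕ} {p : P} : p ∈ inn n ↔ (0 < p.1 ∧ p.1 < n) ∧ 0 < p.2 ∧ p.2 < n := by
  simp [inn]

theorem jg_fat_sqr {L m : ℕ} {B p : P} (hB : B ∈ box m) (hp : p ∈ fat L 0 B) :
    p ∈ sqr (L * m) := by
  rw [jg_box] at hB
  rw [jg_fat] at hp
  rw [jg_sqr]
  push_cast
  have hL : (0 : ℤ) ≤ L := by positivity
  refine ⟨⟨?_, ?_⟩, ?_, ?_⟩ <;> nlinarith [hB.1.1, hB.1.2, hB.2.1, hB.2.2, hp.1.1, hp.1.2, hp.2.1,
    hp.2.2]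

theorem jg_crn {L : ℕ} {B x : P} (hx : x ∈ cell L B) (d : Fin 4) : x + crn d ∈ fat L 0 B := by
  rw [jg_cell] at hx
  rw [jg_fat]
  fin_cases d <;> simp [crn] <;> omega

theorem jg_fold {n : ℕ} {x : ℤ} (h0 : 0 ≤ x) (h1 : x ≤ n) :
    sg n x = (if 0 < x ∧ x < n then 1 else 0) ∧ (0 < x → fold n x = x) := by
  rcases Nat.eq_zero_or_pos n with rfl | hn
  · obtain rfl : x = 0 := by omega
    simp [sg]
  have e : x % (2 * n) = x := Int.emod_eq_of_lt h0 (by omega)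
  simp only [sg, fold, e]
  refine ⟨?_, fun _ => if_pos h1⟩
  split_ifs <;> first | rfl | omega

/-- the white noise on the closed square -/
theorem jg_zw {n : ℕ} {p : P} (hp : p ∈ sqr n) (ω : Om) :
    zw n ω p = if p ∈ inn n then ω (4, p) / 4 else 0 := by
  rw [jg_sqr] at hp
  obtain ⟨a1, a2⟩ := jg_fold hp.1.1 hp.1.2
  obtain ⟨b1, b2⟩ := jg_fold hp.2.1 hp.2.2
  simp only [zw, ext, Pi.smul_apply, smul_eq_mul, a1, b1, jg_inn]
  by_cases h1 : 0 < p.1 ∧ p.1 < n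
  · by_cases h2 : 0 < p.2 ∧ p.2 < n
    · rw [if_pos h1, if_pos h2, if_pos ⟨h1, h2⟩, a2 h1.1, b2 h2.1]
      ring
    · simp [h2]
  · simp [h1]

theorem jg_En_congr {L : ℕ} {B : P} {Θ Ξ : Fld} (h : ∀ p ∈ fat L 0 B, Θ p = Ξ p) :
    En Θ (cell L B) = En Ξ (cell L B) :=
  sum_congr rfl fun x hx => by simp only [dg, h _ (jg_crn hx _)]

theorem jg_n1_congr {L : ℕ} {B : P} {Θ Ξ : Fld} (h : ∀ p ∈ fat L 0 B, Θ p = Ξ p) :
    ∑ x ∈ cell L B, n1 Θ x = ∑ x ∈ cell L B, n1 Ξ x :=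
  sum_congr rfl fun x hx => by simp only [n1, dg, h _ (jg_crn hx _)]

theorem jg_En_shift (Θ : Fld) (c : ℂ) (S : Finset P) : En (fun p => Θ p + c) S = En Θ S := by
  simp only [En, dg, add_sub_add_right_eq_sub]

theorem jg_En_neg (Θ : Fld) (S : Finset P) : En (-Θ) S = En Θ S := by
  simp only [En, dg, Pi.neg_apply, neg_sub_neg]
  exact sum_congr rfl fun x _ => congrArg _ (sum_congr rfl fun d _ => by ring)

theorem jg_En_conj (Θ : Fld) (S : Finset P) : En (fun p => conj (Θ p)) S = conj (En Θ S) := by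
  simp only [En, dg, map_sum, map_mul, map_pow, map_sub, map_div₀, map_one, map_ofNat]

theorem jg_En_zero (S : Finset P) : En 0 S = 0 := by simp [En, dg]

theorem jg_bg_zero (n : ℕ) : bg n 0 = 0 := by
  ext p
  simp [bg]

theorem jg_bg_neg (n : ℕ) (z : ℂ) : bg n (-z) = -bg n z := by
  ext p
  simp [bg]

theorem jg_fm_inj (g : Sy) (c : P) : Function.Injective (fm g c) := by
  rintro ⟨a1, a2⟩ ⟨b1, b2⟩ h
  obtain ⟨sw, f1, f2⟩ := g
  cases sw <;> cases f1 <;> cases f2 <;> simp [fm, vm] at h ⊢ <;> omega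

theorem jg_fm_surj (g : Sy) (c : P) : Function.Surjective (fm g c) := by
  rintro ⟨a1, a2⟩
  obtain ⟨sw, f1, f2⟩ := g
  refine ⟨(fun y : P => if sw then (y.2, y.1) else y)
    (if f1 then c.1 - 1 - a1 else a1 - c.1, if f2 then c.2 - 1 - a2 else a2 - c.2), ?_⟩
  cases sw <;> cases f1 <;> cases f2 <;> simp [fm, vm] <;> omega

theorem jg_cell_fm (L : ℕ) (g : Sy) (c B x : P) :
    fm g (smul L c) x ∈ cell L (fm g c B) ↔ x ∈ cell L B := by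
  obtain ⟨sw, f1, f2⟩ := g
  simp only [jg_cell]
  cases sw <;> cases f1 <;> cases f2 <;> simp [fm, vm, smul] <;> constructor <;>
    rintro ⟨⟨h1, h2⟩, h3, h4⟩ <;> refine ⟨⟨?_, ?_⟩, ?_, ?_⟩ <;> linarith

theorem jg_fat_vm (L : ℕ) (g : Sy) (c B p : P) :
    vm g (smul L c) p ∈ fat L 0 (fm g c B) ↔ p ∈ fat L 0 B := by
  obtain ⟨sw, f1, f2⟩ := g
  simp only [jg_fat]
  cases sw <;> cases f1 <;> cases f2 <;> simp [fm, vm, smul] <;> constructor <;>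
    rintro ⟨⟨h1, h2⟩, h3, h4⟩ <;> refine ⟨⟨?_, ?_⟩, ?_, ?_⟩ <;> linarith

theorem jg_sum_fm {M : Type*} [AddCommMonoid M] (L : ℕ) (g : Sy) (c B : P) (f : P → M) :
    ∑ x ∈ cell L (fm g c B), f x = ∑ x ∈ cell L B, f (fm g (smul L c) x) :=
  (sum_bijective _ ⟨jg_fm_inj g _, jg_fm_surj g _⟩ (fun x => (jg_cell_fm L g c B x).symm)
    fun _ _ => rfl).symm

/-- the corners of a face go to the corners of its image -/
theorem jg_crn_vm (g : Sy) : ∃ π : Fin 4 ≃ Fin 4, (∀ c x d, vm g c (x + crn d) =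
    fm g c x + crn (π d)) ∧ ((∀ d, π (d + 1) = π d + 1) ∨ ∀ d, π d = π (d + 1) + 1) := by
  obtain ⟨sw, f1, f2⟩ := g
  have key : ∀ π : Fin 4 ≃ Fin 4, (∀ d, vm ⟨sw, f1, f2⟩ 0 (crn d) =
      fm ⟨sw, f1, f2⟩ 0 0 + crn (π d)) → ∀ c x d, vm ⟨sw, f1, f2⟩ c (x + crn d) =
      fm ⟨sw, f1, f2⟩ c x + crn (π d) := fun π h c x d => by
    have := h d
    cases sw <;> cases f1 <;> cases f2 <;> simp [fm, vm, Prod.ext_iff] at this ⊢ <;> omega
  suffices ∃ π : Fin 4 ≃ Fin 4, (∀ d, vm ⟨sw, f1, f2⟩ 0 (crn d) =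
      fm ⟨sw, f1, f2⟩ 0 0 + crn (π d)) ∧
      ((∀ d, π (d + 1) = π d + 1) ∨ ∀ d, π d = π (d + 1) + 1) from
    this.imp fun π h => ⟨key π h.1, h.2⟩
  cases sw <;> cases f1 <;> cases f2 <;> decide

theorem jg_face {M : Type*} [AddCommMonoid M] (φ : ℂ → M) (hφ : ∀ y, φ (-y) = φ y) (g : Sy)
    (c x : P) (Θ : Fld) : ∑ d, φ (dg Θ (fm g c x) d) = ∑ d, φ (dg (Θ ∘ vm g c) x d) := by
  obtain ⟨π, h1, h2 | h2⟩ := jg_crn_vm g
  · rw [← π.sum_comp]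
    exact sum_congr rfl fun d _ => by simp only [dg, Function.comp, h1, h2]
  · rw [← ((Equiv.addRight (1 : Fin 4)).trans π).sum_comp]
    refine sum_congr rfl fun d _ => ?_
    rw [← hφ]
    simp only [dg, Function.comp, h1, Equiv.trans_apply, Equiv.coe_addRight, neg_sub, ← h2]

theorem jg_En_vm (L : ℕ) (g : Sy) (c B : P) (Θ : Fld) :
    En Θ (cell L (fm g c B)) = En (Θ ∘ vm g (smul L c)) (cell L B) := by
  rw [En, jg_sum_fm]
  exact sum_congr rfl fun x _ => congrArg _ (jg_face (· ^ 2) (fun y => by ring) g _ x Θ)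

theorem jg_inn_iff {n : ℕ} {p : P} : p ∈ inn n ↔ ∀ d, p - crn d ∈ box n := by
  simp [jg_inn, jg_box, Fin.forall_fin_succ, crn]
  omega

theorem jg_par {L : ℕ} (hL : 0 < L) {B x : P} : x ∈ cell L B ↔ par L x = B := by
  have h : (0 : ℤ) < L := by exact_mod_cast hL
  have e : ∀ a b : ℤ, a / L = b ↔ b * L ≤ a ∧ a < (b + 1) * L := fun a b => by
    rw [← Int.le_ediv_iff_mul_le h, ← Int.ediv_lt_iff_lt_mul h]
    omega
  rw [jg_cell, par, Prod.ext_iff, e, e]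

theorem jg_par_box {L m : ℕ} (hL : 0 < L) {x : P} : x ∈ box (L * m) ↔ par L x ∈ box m := by
  have h : (0 : ℤ) < L := by exact_mod_cast hL
  simp only [jg_box, par, Int.le_ediv_iff_mul_le h, Int.ediv_lt_iff_lt_mul h, zero_mul,
    Nat.cast_mul, mul_comm (L : ℤ)]

theorem jg_par_fm {L : ℕ} (hL : 0 < L) (g : Sy) (c x : P) :
    par L (fm g (smul L c) x) = fm g c (par L x) :=
  (jg_par hL).1 ((jg_cell_fm L g c _ x).2 ((jg_par hL).2 rfl))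

theorem jg_par_nr {L : ℕ} (hL : 0 < L) {B p : P} (hp : p ∈ fat L 0 B) (d : Fin 4) :
    nr 1 B (par L (p - crn d)) := by
  have h : (0 : ℤ) < L := by exact_mod_cast hL
  have e : ∀ a b k : ℤ, b * L ≤ a → a ≤ (b + 1) * L → 0 ≤ k → k ≤ 1 →
      |b - (a - k) / L| ≤ (1 : ℕ) := fun a b k h1 h2 h3 h4 => by
    have h5 : b - 1 ≤ (a - k) / L := (Int.le_ediv_iff_mul_le h).2 (by linarith)
    have h6 : (a - k) / L < b + 2 := (Int.ediv_lt_iff_lt_mul h).2 (by linarith)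
    rw [abs_le]
    omega
  rw [jg_fat] at hp
  exact ⟨e _ _ _ hp.1.1 hp.1.2 (by fin_cases d <;> simp [crn]) (by fin_cases d <;> simp [crn]),
    e _ _ _ hp.2.1 hp.2.2 (by fin_cases d <;> simp [crn]) (by fin_cases d <;> simp [crn])⟩

/-- inner vertices go to inner vertices -/
theorem jg_inn_vm {L m m' : ℕ} (hL : 0 < L) {g : Sy} {c B p : P}
    (h : ∀ B', nr 1 B B' → (B' ∈ box m ↔ fm g c B' ∈ box m')) (hp : p ∈ fat L 0 B) :
    vm g (smul L c) p ∈ inn (L * m') ↔ p ∈ inn (L * m) := by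
  obtain ⟨π, h1, -⟩ := jg_crn_vm g
  rw [jg_inn_iff, jg_inn_iff, ← π.forall_congr_right]
  refine forall_congr' fun d => ?_
  have := h1 (smul L c) (p - crn d) d
  rw [sub_add_cancel] at this
  rw [this, add_sub_cancel_right, jg_par_box hL, jg_par_box hL, jg_par_fm hL,
    ← h _ (jg_par_nr hL hp d)]

/-- the white noise under a move -/
theorem jg_zw_vm {L m m' : ℕ} (hL : 0 < L) {g : Sy} {c B p : P} (hB : B ∈ box m)
    (h : ∀ B', nr 1 B B' → (B' ∈ box m ↔ fm g c B' ∈ box m')) (hp : p ∈ fat L 0 B) {ω ω' : Om}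
    (hω : ω' (4, p) = ω (4, vm g (smul L c) p)) :
    zw (L * m') ω (vm g (smul L c) p) = zw (L * m) ω' p := by
  rw [jg_zw (jg_fat_sqr hB hp), jg_zw (jg_fat_sqr ((h B (by simp [nr])).1 hB)
    ((jg_fat_vm L g c B p).2 hp)), hω]
  simp only [jg_inn_vm hL h hp]

theorem jg_ab_spec {m : ℕ} {U : Finset P} {B : P} (hB : B ∈ U) (h : ab m B) : spec m U := by
  simp only [spec, sds, mem_filter, mem_univ, true_and]
  rcases h with rfl | rfl
  · exact ⟨.inl ⟨_, hB, rfl⟩, .inl ⟨_, hB, rfl⟩⟩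
  · exact ⟨.inr ⟨_, hB, rfl⟩, .inr ⟨_, hB, rfl⟩⟩

theorem jg_n1_nonneg (v : Fld) (x : P) : 0 ≤ n1 v x := by
  unfold n1
  positivity

theorem jg_sum_under {M : Type*} [AddCommMonoid M] {L : ℕ} (hL : 0 < L) (S : Finset P)
    (f : P → M) : ∑ x ∈ under L S, f x = ∑ B ∈ S, ∑ x ∈ cell L B, f x :=
  sum_biUnion fun _ _ _ _ h => disjoint_left.2 fun _ h1 h2 =>
    h (((jg_par hL).1 h1).symm.trans ((jg_par hL).1 h2))

end Pool.Agent.Lib.MP_9cc147_pr.Cx
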