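import Pool.Agent.Lib.MP_9cc147_pr.Cx.J.Geo

/-! The Gaussian data at scale 0. -/

open scoped Classical Topology ComplexConjugate
open Finset MeasureTheory ProbabilityTheory Filter

noncomputable section
namespace Pool.Agent.Lib.MP_9cc147_pr.Cx

theorem gp_En_meas {Y : Type*} [MeasurableSpace Y] {F : Y → Fld}
    (h : ∀ p, Measurable fun y => F y p) (S : Finset P) : Measurable fun y => En (F y) S :=
  measurable_sum _ fun _ _ => (measurable_sum _ fun _ _ =>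
    ((h _).sub (h _)).pow_const 2).const_mul _

theorem gp_En_diff {O : Set ℂ} {F : ℂ → Fld} (h : ∀ p, DifferentiableOn ℂ (fun τ => F τ p) O)
    (S : Finset P) : DifferentiableOn ℂ (fun τ => En (F τ) S) O :=
  DifferentiableOn.fun_sum fun _ _ => (DifferentiableOn.fun_sum fun _ _ =>
    ((h _).fun_sub (h _)).fun_pow 2).const_mul _

theorem gp_zw_meas (n : ℕ) (p : P) : Measurable fun ω => zw n ω p :=
  ((measurable_pi_apply _).const_mul _).const_mul _

theorem gp_n1_meas (n : ℕ) (x : P) : Measurable fun ω => n1 (cf (zw n ω)) x :=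
  (measurable_sum _ fun _ _ => (((Complex.measurable_ofReal.comp (gp_zw_meas n _)).sub
    (Complex.measurable_ofReal.comp (gp_zw_meas n _))).norm).pow_const 2).const_mul _

variable (q : Par)

theorem gp_Ih_congr {b : ℕ × ℕ} {z : ℂ} {lam : ℝ} {B : P} {Θ Ξ : Fld}
    (h : ∀ p ∈ fat q.L 0 B, Θ p = Ξ p) : q.Ih b 0 z lam B Θ = q.Ih b 0 z lam B Ξ := by
  simp only [Par.Ih, Par.Qz, jg_l, jg_En_congr h]

theorem gp_Ih_meas {Y : Type*} [MeasurableSpace Y] {F : Y → Fld}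
    (h : ∀ p, Measurable fun y => F y p) (b : ℕ × ℕ) (j : ℕ) (z : ℂ) (lam : ℝ) (B : P) :
    Measurable fun y => q.Ih b j z lam B (F y) :=
  Complex.measurable_exp.comp (((gp_En_meas h _).sub_const _).const_mul _)

theorem gp_Ih_diff {O : Set ℂ} {F : ℂ → Fld} {zf : ℂ → ℂ} (hz : DifferentiableOn ℂ zf O)
    (h : ∀ p, DifferentiableOn ℂ (fun τ => F τ p) O) (b : ℕ × ℕ) (j : ℕ) (lam : ℝ) (B : P) :
    DifferentiableOn ℂ (fun τ => q.Ih b j (zf τ) lam B (F τ)) O := by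
  refine (((gp_En_diff h _).fun_sub ?_).const_mul _).cexp
  split_ifs
  · exact gp_En_diff (F := fun τ => bg (q.n b) (zf τ)) (fun p => hz.mul_const _) _
  · exact differentiableOn_const _

theorem gp_Ih_shift (b : ℕ × ℕ) (j : ℕ) (z : ℂ) (lam : ℝ) (B : P) (Θ : Fld) (c : ℂ) :
    q.Ih b j z lam B (fun p => Θ p + c) = q.Ih b j z lam B Θ := by
  simp only [Par.Ih, Par.Qz, jg_En_shift]

theorem gp_Ih_neg (b : ℕ × ℕ) (j : ℕ) (z : ℂ) (lam : ℝ) (B : P) (Θ : Fld) :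
    q.Ih b j (-z) lam B (-Θ) = q.Ih b j z lam B Θ := by
  simp only [Par.Ih, Par.Qz, jg_bg_neg, jg_En_neg]

theorem gp_Ih_zero (b : ℕ × ℕ) (j : ℕ) (lam : ℝ) (B : P) (Θ : Fld) :
    q.Ih b j 0 lam B Θ = Complex.exp (-(lam / 2 : ℂ) * En Θ (cell (q.l j) B)) := by
  simp only [Par.Ih, Par.Qz, jg_bg_zero, jg_En_zero, ite_self, sub_zero]

theorem gp_Ih_conj (b : ℕ × ℕ) (j : ℕ) (lam : ℝ) (B : P) (Θ : Fld) :
    q.Ih b j 0 lam B (fun p => conj (Θ p)) = conj (q.Ih b j 0 lam B Θ) := by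
  rw [gp_Ih_zero, gp_Ih_zero, jg_En_conj, ← Complex.exp_conj]
  simp [map_ofNat]

theorem gp_Ih_far {b : ℕ × ℕ} {j : ℕ} {B : P} (h : ¬ ab (q.m b j) B) (z : ℂ) (lam : ℝ) (Θ : Fld) :
    q.Ih b j z lam B Θ = q.Ih b j 0 lam B Θ := by
  simp only [Par.Ih, Par.Qz, if_neg h]

theorem gp_Ih_vm (b b' : ℕ × ℕ) (j : ℕ) (lam : ℝ) (g : Sy) (c B : P) (Θ : Fld) :
    q.Ih b' j 0 lam (fm g c B) Θ = q.Ih b j 0 lam B (Θ ∘ vm g (smul (q.l j) c)) := by
  rw [gp_Ih_zero, gp_Ih_zero, jg_En_vm]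

theorem gp_rel {mu : ℝ} {φ : ℂ → ℂ} (h0 : φ 0 = 0) {b b' : ℕ × ℕ} {z z' : ℂ} {Θ Θ' : Fld}
    {ω ω' : Om} {β : P → P} {π : Lab → Lab} {U : Finset P}
    (h : ∀ B ∈ U, q.Ih b' 0 z' mu (β B) (Θ' + cf (zw (q.n b') ω')) =
      φ (q.Ih b 0 z mu B (Θ + cf (zw (q.n b) ω)))) :
    Par.Rel (q.gPre mu) φ b b' z z' Θ Θ' ω ω' β π U :=
  ⟨fun _ B hB => h B hB, fun _ _ _ _ => h0.symm, fun _ _ _ _ _ _ => h0.symm⟩

theorem gp_loc0 (X : Finset P) : q.Loc0 X fun _ _ => 0 :=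
  ⟨measurable_const, fun _ _ _ _ _ => rfl⟩

theorem gp_preS (h_zel : S_zel) (h_ziso : S_ziso) (hL : 100 ≤ q.L) (t0 mu : ℝ) :
    q.PreS t0 (gaussianReal 0 1) (q.gPre mu) where
  locI b z s B _ hB := by
    refine ⟨gp_Ih_meas q (F := fun y : Fld × Om => y.1 + cf (zw (q.n b) y.2)) (fun p =>
      ((measurable_pi_apply p).comp measurable_fst).add (Complex.measurable_ofReal.comp
        ((gp_zw_meas _ p).comp measurable_snd))) b 0 z mu B, fun Θ Ξ ω ω' h => ?_⟩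
    refine gp_Ih_congr q fun p hp => ?_
    have h1 := h p (by simpa using hp)
    have h2 : p ∈ sqr (q.n b) := jg_n q b ▸ jg_fat_sqr hB hp
    simp only [Pi.add_apply, cf, jg_zw h2, h1.1, h1.2]
  locK _ _ _ X _ _ := gp_loc0 q X
  locN _ _ X _ _ _ := gp_loc0 q X
  holI b ω s B O zf Θf hz h := gp_Ih_diff q (F := fun τ => Θf τ + cf (zw (q.n b) ω)) hz
    (fun p => (h p).add_const _) b 0 mu B
  holK _ _ _ _ _ _ _ _ _ := differentiableOn_const _
  holN _ _ _ _ _ _ _ _ _ := differentiableOn_const _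
  sh b z Θ ω c _ := gp_rel q rfl fun B _ => by
    rw [id, id, ← gp_Ih_shift q b 0 z mu B (Θ + _) c]
    congr 1
    ext p
    simp only [Pi.add_apply]
    ring
  neg b z Θ ω _ := gp_rel q rfl fun B _ => by
    rw [id, id, ← gp_Ih_neg q b 0 z mu B (Θ + _)]
    congr 1
    ext p
    simp [cf, zw, ext, add_comm]
  cj b Θ ω _ := gp_rel q (map_zero _) fun B _ => by
    rw [id, ← gp_Ih_conj]
    congr 1
    ext p
    simp only [Pi.add_apply, cf, map_add, Complex.conj_ofReal]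
    rfl
  far b z Θ ω U _ _ hU := gp_rel q rfl fun B hB =>
    gp_Ih_far q (fun h => hU (jg_ab_spec hB h)) z mu _
  iso b b' g c _ _ := by
    refine ⟨fun ω i => ω (i.1, vm g (smul q.L c) i.2), ?_, fun _ _ => rfl, fun U hU hM =>
      ⟨fun _ _ _ => rfl, fun Θ ω => gp_rel q rfl fun B hB => ?_⟩⟩
    · have := (h_ziso q 0 g c hL).1
      rwa [jg_l, h_zel.1] at this
    · rw [id, gp_Ih_vm q b, jg_l]
      refine gp_Ih_congr q fun p hp => ?_
      simp only [Pi.add_apply, Function.comp, cf, jg_n]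
      rw [jg_zw_vm (ω' := fun i => ω (i.1, vm g (smul q.L c) i.2)) (by omega) (hU hB)
        (fun B' h => hM.1 B' ⟨B, hB, h⟩) hp rfl]
  lam12 := rfl

theorem t_gpre (h_zel : S_zel) (h_ziso : S_ziso) (h_zmom : S_zmom) : S_gpre := by
  filter_upwards [h_zmom, fp_L 100, fp_A fun _ => 1, fp_κ (fun _ _ => 1) fun _ _ => one_pos]
    with q hm hL hA hκ
  refine ⟨⟨fun _ => continuous_id, fun _ _ _ => continuous_const, fun b Θ ω s B => ?_,
    fun _ _ _ _ _ => continuous_const, fun _ _ _ _ _ => continuous_const⟩,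
    fun b B ω => Real.exp (q.κ * ∑ x ∈ cell q.L B, n1 (cf (zw (q.n b) ω)) x), fun t0 mu hmu =>
    ⟨gp_preS q h_zel h_ziso hL.2 t0 mu, fun β hβ => ⟨fun _ => ⟨hmu, hβ, pow_le_pow_left₀ hmu hβ 2⟩,
      fun _ _ _ _ _ => one_pos, fun _ _ _ _ _ _ => ?_, fun _ _ _ => le_rfl, fun b S hb hS => ?_,
      fun b z θ U v ω _ _ _ _ _ => ⟨fun s B _ => ?_, fun s X _ _ => ?_, fun X σ _ _ => ?_⟩⟩⟩⟩
  · exact Complex.continuous_exp.comp ((Complex.continuous_ofReal.div_const 2).neg.mul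
      continuous_const)
  · have := Real.exp_one_lt_d9
    simp only [Par.gPre, div_one, Real.log_one, abs_zero, zero_add]
    linarith
  · obtain ⟨h1, h2⟩ := (hm b 0 hb).2.2 (gaussianReal 0 1) S hS
    have h3 : ∀ ω, ∏ B ∈ S, Real.exp (q.κ * ∑ x ∈ cell q.L B, n1 (cf (zw (q.n b) ω)) x) ≤
        Real.exp (q.L * q.κ * ∑ x ∈ under q.L S, n1 (cf (zw (q.n b) ω)) x) := fun ω => by
      rw [← Real.exp_sum, ← mul_sum, ← jg_sum_under (by omega)]
      have h4 : (1 : ℝ) ≤ q.L := by exact_mod_cast (by omega : 1 ≤ q.L)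
      exact Real.exp_le_exp.2 (mul_le_mul_of_nonneg_right (le_mul_of_one_le_left hκ.1.le h4)
        (sum_nonneg fun x _ => jg_n1_nonneg _ x))
    have h5 := h1.mono' (f := fun ω => ∏ B ∈ S,
      Real.exp (q.κ * ∑ x ∈ cell q.L B, n1 (cf (zw (q.n b) ω)) x))
      (measurable_prod _ fun B _ => Real.measurable_exp.comp
        ((measurable_sum _ fun x _ => gp_n1_meas _ x).const_mul _)).aestronglyMeasurable
      (.of_forall fun ω => by
        rw [Real.norm_of_nonneg (by positivity)]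
        exact h3 ω)
    exact ⟨h5, (integral_mono h5 h1 h3).trans (h2.trans (by gcongr; norm_num))⟩
  · have h0 : 0 ≤ β := hmu.trans hβ
    simp only [Par.gPre, Complex.ofReal_one, div_one, sub_self, norm_zero]
    split_ifs <;> positivity
  · simp only [Par.gPre, norm_zero]
    have h0 : 0 < q.A := by linarith
    positivity
  · simp [Par.gPre]

end Pool.Agent.Lib.MP_9cc147_pr.Cx
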