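import Pool.Agent.Lib.MP_9cc147_pr.Cx.J.S
import Pool.Agent.Lib.MP_9cc147_pr.Cx.A.One1

/-! Bounds on the atoms of the first step. -/

open scoped Classical Topology ComplexConjugate
open Finset MeasureTheory ProbabilityTheory Filter

noncomputable section
namespace Pool.Agent.Lib.MP_9cc147_pr.Cx

/-- standing assumptions of the first step -/
structure JC (q : Par) (t0 : ℝ) (m : Measure ℝ) (p : Par.Pre) (β1 β2 ν ρ : ℝ)
    (y : ℕ × ℕ → P → Om → ℝ) : Prop where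
  L : 100 ≤ q.L
  k0 : 0 < q.κ
  k1 : q.κ ≤ 1
  A : 1 ≤ q.A
  CA : 4 * q.A * (4 + q.C0) ≤ q.C
  CS : (4 * (18 + 2 * q.C0 ^ 2)) ^ 2 ≤ q.C
  ek : q.ε ≤ q.κ / 100
  eL : q.ε * q.L ^ 2 ≤ 1
  t : t0 ≤ 1
  neg : m.map (fun x => -x) = m
  S : q.PreS t0 m p
  B : q.PreB t0 m p β1 β2 ν ρ y
  b2 : 0 ≤ β2
  b21 : β2 ≤ β1
  b1 : β1 ≤ q.ε
  n0 : 0 ≤ ν
  r1 : 1 ≤ ρ
  nr : ν * ρ ^ 8 ≤ β2

theorem ja_n1 (v : Fld) (x : P) : 0 ≤ n1 v x := by unfold n1; positivity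

theorem ja_under1 (U : Finset P) : under 1 U = U := by
  ext b; rw [one_mem_under le_rfl]; simp [par]

theorem ja_sum {L : ℕ} (hL : 1 ≤ L) (X : Finset P) (f : P → ℝ) :
    ∑ x ∈ under L X, f x = ∑ B ∈ X, ∑ x ∈ cell L B, f x := by
  refine sum_biUnion fun a _ b _ hab => disjoint_left.2 fun x hx hy => hab ?_
  rw [one_mem_cell hL] at hx hy; rw [← hx, ← hy]

theorem ja_gT (q : Par) (hL : 1 ≤ q.L) (θ : P → ℝ) (X : Finset P) :
    ∏ B ∈ X, q.gT θ B = Real.exp (q.κ * ∑ x ∈ under q.L X, n1 (cf θ) x) := by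
  rw [ja_sum hL, mul_sum, Real.exp_sum]; rfl

theorem ja_reg (q : Par) (hL : 1 ≤ q.L) (hk : 0 ≤ q.κ) (θ : P → ℝ) (X : Finset P) :
    ∏ B ∈ X, q.gT θ B ≤ Real.exp (q.κ * Reg q.L X θ) := by
  rw [ja_gT q hL]
  refine Real.exp_le_exp.2 (mul_le_mul_of_nonneg_left ?_ hk)
  have h1 : 0 ≤ ∑ x ∈ nbs q.L X \ under q.L X, n1 (cf θ) x := sum_nonneg fun x _ => ja_n1 _ _
  have h2 : 0 ≤ ∑ x ∈ nbs q.L X, n2 (cf θ) x := sum_nonneg fun x _ => by unfold n2; positivity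
  unfold Reg
  have := mul_nonneg (sq_nonneg (q.L : ℝ)) h2
  linarith

theorem ja_q4 {k : ℝ} (hk : 0 ≤ k) (θ : P → ℝ) (S : Finset P) :
    Real.exp (k / 4 * ∑ x ∈ S, n1 (cf θ) x) ≤ Real.exp (k * ∑ x ∈ S, n1 (cf θ) x) :=
  Real.exp_le_exp.2 (mul_le_mul_of_nonneg_right (by linarith) (sum_nonneg fun x _ => ja_n1 _ _))

/-- weight of a tile for the energy differences -/
def jw (m : ℕ) (ρ : ℝ) (B : P) : ℝ := if corner m B then ρ else 2

theorem ja_ncor (m : ℕ) (X : Finset P) : ncor m X ≤ 4 := by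
  have : X.filter (corner m) ⊆ ({0, (m : ℤ) - 1} : Finset ℤ) ×ˢ ({0, (m : ℤ) - 1} : Finset ℤ) := by
    intro B hB
    have := (mem_filter.1 hB).2
    simpa [corner] using this
  refine (card_le_card this).trans ?_
  rw [card_product]
  exact Nat.mul_le_mul card_le_two card_le_two

theorem ja_jw (m : ℕ) {ρ : ℝ} (hρ : 1 ≤ ρ) (X : Finset P) :
    ∏ B ∈ X, jw m ρ B ≤ ρ ^ ncor m X * 2 ^ X.card := by
  unfold jw ncor
  rw [prod_ite, prod_const, prod_const]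
  exact mul_le_mul_of_nonneg_left (pow_le_pow_right₀ one_le_two (card_filter_le _ _))
    (by positivity)

theorem ja_It (q : Par) (μ : Measure Om) (p : Par.Pre) (b : ℕ × ℕ) (z : ℂ) (Θ : Fld) (s : Lab)
    (B : P) : Complex.exp (q.e0 μ p b s B) * q.It0 μ p b z Θ s B = q.Ih b 0 z (p.lam s) B Θ := by
  unfold Par.It0
  rw [← mul_assoc, ← Complex.exp_add]; simp

theorem ja_It0 (q : Par) (μ : Measure Om) (p : Par.Pre) (b : ℕ × ℕ) (z : ℂ) (Θ : Fld) (s : Lab)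
    (B : P) : q.It0 μ p b z Θ s B ≠ 0 :=
  mul_ne_zero (Complex.exp_ne_zero _) (Complex.exp_ne_zero _)

theorem ja_T1 (q : Par) (μ : Measure Om) (p : Par.Pre) (b : ℕ × ℕ) (z : ℂ) (Θ : Fld) (s : Lab)
    (B : P) : Complex.exp (q.e0 μ p b 0 B) *
      (Complex.exp (-(q.inp0 μ p b z Θ).d s B) * (q.inp0 μ p b z Θ).It s B) =
    Complex.exp (-q.d0 μ p b s B) * (Complex.exp (q.e0 μ p b s B) * q.It0 μ p b z Θ s B) := by
  show _ * (Complex.exp (-(q.d0 μ p b s B - q.D0 μ p b s B)) * q.It0 μ p b z Θ s B) = _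
  rw [← mul_assoc, ← mul_assoc, ← Complex.exp_add, ← Complex.exp_add]
  congr 2; unfold Par.D0; ring

variable {q : Par} {t0 : ℝ} {m : Measure ℝ} [IsProbabilityMeasure m] {p : Par.Pre}
  {β1 β2 ν ρ : ℝ} {y : ℕ × ℕ → P → Om → ℝ}

namespace JC

theorem L1 (J : JC q t0 m p β1 β2 ν ρ y) : 1 ≤ q.L := le_trans (by norm_num) J.L

theorem e1 (J : JC q t0 m p β1 β2 ν ρ y) : q.ε ≤ 1 / 100 := by linarith [J.ek, J.k1]

theorem y1 (J : JC q t0 m p β1 β2 ν ρ y) (b B ω) : 1 ≤ y b B ω :=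
  le_trans (Real.one_le_exp (mul_nonneg J.k0.le (sum_nonneg fun _ _ => ja_n1 _ _))) (J.B.ylow b B ω)

theorem C0 (J : JC q t0 m p β1 β2 ν ρ y) : 0 < q.C0 := by
  have := J.k0; unfold Par.C0; positivity

theorem lamE (J : JC q t0 m p β1 β2 ν ρ y) (h_e0 : S_e0) {b B} (hb : Par.ok b 0)
    (hB : B ∈ box (q.m b 0)) (s : Lab) : ‖(p.lam s / 2 : ℂ) * E0 q (mu0 m) b B‖ ≤ 1 / 2 := by
  have h1 := (h_e0 q m b B J.L hb hB).2.1
  have h2 := J.B.lam s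
  rw [norm_mul, norm_div, Complex.norm_real, Real.norm_of_nonneg h2.1]
  have h3 : p.lam s * ‖E0 q (mu0 m) b B‖ ≤ q.ε * q.L ^ 2 :=
    mul_le_mul (h2.2.1.trans J.b1) h1 (norm_nonneg _) (h2.1.trans (h2.2.1.trans J.b1))
  have := J.eL
  simp only [Complex.norm_ofNat]; linarith

theorem expE (J : JC q t0 m p β1 β2 ν ρ y) (h_e0 : S_e0) {b B} (hb : Par.ok b 0)
    (hB : B ∈ box (q.m b 0)) (s : Lab) :
    ‖Complex.exp ((p.lam s / 2 : ℂ) * E0 q (mu0 m) b B)‖ ≤ 2 := by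
  refine (Complex.norm_exp_le_exp_norm _).trans ((Real.exp_le_exp.2 (J.lamE h_e0 hb hB s)).trans ?_)
  have h := Real.exp_one_lt_d9
  have : Real.exp (1 / 2) ^ 2 = Real.exp 1 := by rw [← Real.exp_nat_mul]; norm_num
  nlinarith [Real.exp_pos (1 / 2)]

theorem e0 (J : JC q t0 m p β1 β2 ν ρ y) {b B} (hb : Par.ok b 0) (hB : B ∈ box (q.m b 0))
    (s : Lab) : Complex.exp (q.e0 (mu0 m) p b s B) =
      Complex.exp ((p.lam s / 2 : ℂ) * E0 q (mu0 m) b B) / p.c b s B := by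
  show Complex.exp ((p.lam s / 2 : ℂ) * E0 q (mu0 m) b B - Real.log (p.c b s B)) = _
  rw [Complex.exp_sub, ← Complex.ofReal_exp, Real.exp_log (J.B.cpos b s B hb hB)]

theorem e0n (J : JC q t0 m p β1 β2 ν ρ y) (h_e0 : S_e0) {b B} (hb : Par.ok b 0)
    (hB : B ∈ box (q.m b 0)) (s : Lab) :
    ‖Complex.exp (q.e0 (mu0 m) p b s B)‖ * p.c b s B ≤ 2 := by
  have hc := J.B.cpos b s B hb hB
  rw [J.e0 hb hB, norm_div, Complex.norm_real, Real.norm_of_nonneg hc.le, div_mul_cancel₀ _ hc.ne']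
  exact J.expE h_e0 hb hB s

theorem d0 (J : JC q t0 m p β1 β2 ν ρ y) (h_e0 : S_e0) {b B} (hb : Par.ok b 0)
    (hB : B ∈ box (q.m b 0)) (s : Lab) :
    if corner (q.m b 0) B then Real.exp |(q.d0 (mu0 m) p b s B).re| ≤ ρ
    else ‖q.d0 (mu0 m) p b s B‖ ≤ q.ε := by
  unfold Par.d0
  split_ifs with h
  · refine le_trans (Real.exp_le_exp.2 ?_) (J.B.ccor b s B hb hB h)
    have e : q.D0 (mu0 m) p b s B = (p.lam s / 2 : ℂ) * E0 q (mu0 m) b B -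
        (p.lam 0 / 2 : ℂ) * E0 q (mu0 m) b B - Real.log (p.c b s B / p.c b 0 B) := by
      rw [Real.log_div (J.B.cpos b s B hb hB).ne' (J.B.cpos b 0 B hb hB).ne']
      unfold Par.D0 Par.e0 E0; push_cast; ring
    refine (Complex.abs_re_le_norm _).trans ?_
    rw [e]
    refine (norm_sub_le _ _).trans ?_
    have := norm_sub_le ((p.lam s / 2 : ℂ) * E0 q (mu0 m) b B) ((p.lam 0 / 2 : ℂ) * E0 q (mu0 m) b B)
    have h1 := J.lamE h_e0 hb hB s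
    have h2 := J.lamE h_e0 hb hB 0
    rw [Complex.norm_real, Real.norm_eq_abs]; linarith
  · have he : 0 ≤ q.ε := J.b2.trans (J.b21.trans J.b1)
    rw [Complex.norm_real, Real.norm_eq_abs, abs_le]
    exact ⟨le_max_left _ _, max_le (by linarith) (min_le_left _ _)⟩

theorem dw (J : JC q t0 m p β1 β2 ν ρ y) (h_e0 : S_e0) {b B} (hb : Par.ok b 0)
    (hB : B ∈ box (q.m b 0)) (s : Lab) :
    Real.exp |(q.d0 (mu0 m) p b s B).re| ≤ jw (q.m b 0) ρ B := by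
  have h := J.d0 h_e0 hb hB s
  unfold jw
  split_ifs at h ⊢
  · exact h
  · have h1 : |(q.d0 (mu0 m) p b s B).re| ≤ 1 / 2 := by
      linarith [Complex.abs_re_le_norm (q.d0 (mu0 m) p b s B), J.e1]
    refine (Real.exp_le_exp.2 h1).trans ?_
    have h := Real.exp_one_lt_d9
    have : Real.exp (1 / 2) ^ 2 = Real.exp 1 := by rw [← Real.exp_nat_mul]; norm_num
    nlinarith [Real.exp_pos (1 / 2)]

theorem jw1 (J : JC q t0 m p β1 β2 ν ρ y) (M : ℕ) (B : P) : 1 ≤ jw M ρ B := by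
  unfold jw; split_ifs
  · exact J.r1
  · norm_num

/-- common shape of the polymer bounds -/
theorem poly (J : JC q t0 m p β1 β2 ν ρ y) (h_e0 : S_e0) {b} (hb : Par.ok b 0) {X : Finset P}
    (hX : X ⊆ box (q.m b 0)) (s : Lab) (θ : P → ℝ) (ω : Om) {k : ℂ} {β : ℝ} (hβ : 0 ≤ β)
    (hk : ‖k‖ ≤ β * q.A⁻¹ ^ (2 * X.card) * (∏ B ∈ X, p.c b s B * y b B ω) *
      Real.exp (q.κ / 4 * ∑ x ∈ under q.L X, n1 (cf θ) x)) :
    ‖(∏ B ∈ X, Complex.exp (q.e0 (mu0 m) p b s B)) * k‖ ≤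
      β * (q.A ^ 2 / 16)⁻¹ ^ X.card * ∏ B ∈ X, y b B ω * q.gT θ B := by
  have hA : 0 < q.A := by linarith [J.A]
  have hy : ∀ B, 0 ≤ y b B ω := fun B => zero_le_one.trans (J.y1 b B ω)
  have hc : 0 ≤ ∏ B ∈ X, p.c b s B * y b B ω :=
    prod_nonneg fun B hB => mul_nonneg (J.B.cpos b s B hb (hX hB)).le (hy B)
  have h1 : ‖k‖ ≤ β * q.A⁻¹ ^ (2 * X.card) * (∏ B ∈ X, p.c b s B * y b B ω) *
      ∏ B ∈ X, q.gT θ B := by
    rw [ja_gT q J.L1]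
    exact hk.trans (mul_le_mul_of_nonneg_left (ja_q4 J.k0.le θ _) (by positivity))
  have h2 : (∏ B ∈ X, ‖Complex.exp (q.e0 (mu0 m) p b s B)‖) * ∏ B ∈ X, p.c b s B ≤ 16 ^ X.card := by
    rw [← prod_mul_distrib, ← prod_const]
    exact prod_le_prod (fun B hB => mul_nonneg (norm_nonneg _) (J.B.cpos b s B hb (hX hB)).le)
      fun B hB => (J.e0n h_e0 hb (hX hB) s).trans (by norm_num)
  have h3 : 0 ≤ (∏ B ∈ X, y b B ω) * ∏ B ∈ X, q.gT θ B :=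
    mul_nonneg (prod_nonneg fun B _ => hy B) (prod_nonneg fun B _ => (Real.exp_pos _).le)
  have e : (q.A ^ 2 / 16)⁻¹ ^ X.card = q.A⁻¹ ^ (2 * X.card) * 16 ^ X.card := by
    rw [pow_mul, ← mul_pow]; congr 1; field_simp
  rw [norm_mul, norm_prod, e, prod_mul_distrib]
  refine (mul_le_mul_of_nonneg_left h1 (prod_nonneg fun B _ => norm_nonneg _)).trans ?_
  rw [prod_mul_distrib]
  have h4 := mul_le_mul_of_nonneg_right h2 (mul_nonneg (mul_nonneg hβ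
    (by positivity : 0 ≤ q.A⁻¹ ^ (2 * X.card))) h3)
  nlinarith [h4]

end JC

/-- error of a tile against the Gaussian weight -/
def Par.Er (q : Par) (p : Par.Pre) (b : ℕ × ℕ) (z : ℂ) (Θ : Fld) (s : Lab) (B : P) (ω : Om) : ℂ :=
  p.I b z Θ ω s B / p.c b s B - q.Ih b 0 z (p.lam s) B (Θ + cf (zw (q.n b) ω))

theorem JC.mark (J : JC q t0 m p β1 β2 ν ρ y) {b B} (hb : Par.ok b 0) (hB : B ∈ box (q.m b 0))
    (z : ℂ) (Θ : Fld) (s : Lab) (ω : Om) :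
    Complex.exp (q.e0 (mu0 m) p b s B) * q.It0 (mu0 m) p b z Θ s B *
      (q.inp0 (mu0 m) p b z Θ).M ω s B =
    Complex.exp ((p.lam s / 2 : ℂ) * E0 q (mu0 m) b B) * q.Er p b z Θ s B ω +
      q.Gm (mu0 m) b z (p.lam s) B Θ ω := by
  show _ * (p.I b z Θ ω s B / q.It0 (mu0 m) p b z Θ s B - 1) = _
  rw [mul_sub, mul_one, mul_assoc, mul_div_cancel₀ _ (ja_It0 q _ p b z Θ s B), ja_It, J.e0 hb hB]
  unfold Par.Er Par.Gm; ring

theorem ja_pol (q : Par) (μ : Measure Om) (p : Par.Pre) (b : ℕ × ℕ) (z : ℂ) (Θ : Fld) (s : Lab)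
    (X : Finset P) (ω : Om) :
    (∏ B ∈ X, Complex.exp (q.e0 μ p b s B) * q.It0 μ p b z Θ s B) * (q.inp0 μ p b z Θ).K ω s X =
    (∏ B ∈ X, Complex.exp (q.e0 μ p b s B)) * p.K b z Θ ω s X := by
  show _ * (p.K b z Θ ω s X / ∏ B ∈ X, q.It0 μ p b z Θ s B) = _
  rw [prod_mul_distrib, mul_assoc,
    mul_div_cancel₀ _ (prod_ne_zero_iff.2 fun B _ => ja_It0 q μ p b z Θ s B)]

end Pool.Agent.Lib.MP_9cc147_pr.Cx
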