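import Pool.Agent.Lib.MP_9cc147_pr.Cx.J.Sum

/-! Bounds on the activities after the first step. -/

open scoped Classical Topology ComplexConjugate
open Finset MeasureTheory ProbabilityTheory Filter

noncomputable section
namespace Pool.Agent.Lib.MP_9cc147_pr.Cx

variable {q : Par} {t0 : ℝ} {m : Measure ℝ} [IsProbabilityMeasure m] {p : Par.Pre}
  {β1 β2 ν ρ : ℝ} {y : ℕ × ℕ → P → Om → ℝ}
  {b : ℕ × ℕ} {z : ℂ} {θ : P → ℝ} {U : Finset P} {v : Fld}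

theorem jb_meas (hm : S_j_meas) (J : JC q t0 m p β1 β2 ν ρ y) (hb : Par.ok b 0)
    (hU : Pm (q.m b 0) U) (z : ℂ) (Θ : Fld) :
    (∀ s, Measurable (q.G0 (mu0 m) p b z U s Θ)) ∧ ∀ σ, Measurable (q.G1 (mu0 m) p b z U σ Θ) := by
  obtain ⟨h0, h1⟩ := hm q t0 m (mu0 m) p b z U J.L1 J.S hb hU
  exact ⟨fun s => ((h0 s).1.comp measurable_prodMk_left).const_mul _,
    fun σ => ((h1 σ).1.comp measurable_prodMk_left).const_mul _⟩

/-- integration of a bound by a multiple of the product of the `y` -/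
theorem jb_int (J : JC q t0 m p β1 β2 ν ρ y) (hb : Par.ok b 0) (hU : U ⊆ box (q.m b 0))
    {F : Om → ℂ} (hF : AEStronglyMeasurable F (mu0 m)) {k : ℝ} (hk : 0 ≤ k)
    (h : ∀ ω, ‖F ω‖ ≤ k * ∏ B ∈ U, y b B ω) :
    Integrable F (mu0 m) ∧ ‖∫ ω, F ω ∂mu0 m‖ ≤ k * 2 ^ U.card := by
  obtain ⟨h1, h2⟩ := J.B.yint b U hb hU
  refine ⟨(h1.const_mul k).mono' hF (.of_forall h),
    (norm_integral_le_of_norm_le (h1.const_mul k) (.of_forall h)).trans ?_⟩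
  rw [integral_const_mul]
  exact mul_le_mul_of_nonneg_left h2 hk

theorem jb_gT (q : Par) (θ : P → ℝ) (U : Finset P) : 0 ≤ ∏ B ∈ U, q.gT θ B :=
  prod_nonneg fun _ _ => (Real.exp_pos _).le

/-- constant of the majorant of the one phase integrand -/
def jb0 (q : Par) (p : Par.Pre) (β1 β2 : ℝ) (θ : P → ℝ) (U : Finset P) (s : Lab) : ℝ :=
  (2 * β1 + p.lam s * q.C0 + (β2 / 1000 + Real.sqrt q.C *
    (2 * β1 + p.lam s * q.C0 + β2) ^ 2) * (16 * q.A)⁻¹ ^ U.card) * ∏ B ∈ U, q.gT θ B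
def jb1 (q : Par) (ν ρ : ℝ) (b : ℕ × ℕ) (θ : P → ℝ) (U : Finset P) (σ : P → Option Lab) : ℝ :=
  (if Nn (box (q.m b 0)) U σ then ν / 1000 else Real.sqrt q.C * ν) * (16 * q.A)⁻¹ ^ U.card *
    (∏ B ∈ U, jw (q.m b 0) ρ B) * ∏ B ∈ U, q.gT θ B

namespace JC

theorem jb0n (J : JC q t0 m p β1 β2 ν ρ y) (θ : P → ℝ) (U : Finset P) (s : Lab) :
    0 ≤ jb0 q p β1 β2 θ U s := by
  have := J.b2; have := J.b2.trans J.b21; have := (J.B.lam s).1; have := J.C0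
  have : 0 < q.A := by linarith [J.A]
  exact mul_nonneg (by positivity) (jb_gT q θ U)

theorem jb1n (J : JC q t0 m p β1 β2 ν ρ y) (b : ℕ × ℕ) (θ : P → ℝ) (U : Finset P)
    (σ : P → Option Lab) : 0 ≤ jb1 q ν ρ b θ U σ := by
  have := J.n0
  have : 0 < q.A := by linarith [J.A]
  refine mul_nonneg (mul_nonneg (mul_nonneg ?_ (by positivity))
    (prod_nonneg fun B _ => zero_le_one.trans (J.jw1 _ B))) (jb_gT q θ U)
  split_ifs <;> positivity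

theorem maj0 (J : JC q t0 m p β1 β2 ν ρ y) (N : JN q) (h_one : S_one) (h_e0 : S_e0) (hlw : S_j_lw)
    (hg : S_j_gau) (a : JA q t0 b z θ U v) (s : Lab) (ω : Om) :
    ‖q.G0 (mu0 m) p b z U s (bg (q.n b) z + cf θ + v) ω‖ ≤
      jb0 q p β1 β2 θ U s * ∏ B ∈ U, y b B ω := by
  have hb : 0 ≤ β1 := J.b2.trans J.b21
  have h := J.G0 N h_one h_e0 hlw hg a s ω hb le_rfl fun B hB => J.er1 a s hB ω
  have hY : 0 ≤ ∏ B ∈ U, y b B ω * q.gT θ B := prod_nonneg fun B _ => J.Y0 θ ω B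
  have hl : 0 ≤ p.lam s * q.C0 := mul_nonneg (J.B.lam s).1 J.C0.le
  unfold jb0
  rw [mul_assoc, ← prod_mul_distrib]
  simp only [mul_comm (q.gT θ _)]
  split_ifs at h with hc
  · obtain ⟨B, rfl⟩ := card_eq_one.1 hc
    simp only [sum_singleton, prod_singleton] at h ⊢
    have h2 := (J.gau hg a s (mem_singleton_self B)).1 ω
    have h3 := norm_add_le_of_le h h2
    rw [sub_add_cancel] at h3
    exact h3.trans (le_of_eq (by ring))
  · rw [sub_zero, zero_add] at h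
    exact h.trans (mul_le_mul_of_nonneg_right (by linarith) hY)

theorem maj1 (J : JC q t0 m p β1 β2 ν ρ y) (N : JN q) (h_e0 : S_e0) (hlw : S_j_lw)
    (hg : S_j_gau) (a : JA q t0 b z θ U v) (σ : P → Option Lab) (ω : Om) :
    ‖q.G1 (mu0 m) p b z U σ (bg (q.n b) z + cf θ + v) ω‖ ≤
      jb1 q ν ρ b θ U σ * ∏ B ∈ U, y b B ω := by
  refine (J.G1 N h_e0 hlw hg a σ ω).trans (le_of_eq ?_)
  unfold jb1
  rw [prod_mul_distrib, prod_mul_distrib]; ring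

theorem int0 (J : JC q t0 m p β1 β2 ν ρ y) (N : JN q) (h_one : S_one) (h_e0 : S_e0)
    (hlw : S_j_lw) (hg : S_j_gau) (hm : S_j_meas) (a : JA q t0 b z θ U v) (s : Lab) :
    Integrable (q.G0 (mu0 m) p b z U s (bg (q.n b) z + cf θ + v)) (mu0 m) :=
  (jb_int J a.ok a.pm.1 ((jb_meas hm J a.ok a.pm z _).1 s).aestronglyMeasurable (J.jb0n θ U s)
    (J.maj0 N h_one h_e0 hlw hg a s)).1

theorem int1 (J : JC q t0 m p β1 β2 ν ρ y) (N : JN q) (h_e0 : S_e0)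
    (hlw : S_j_lw) (hg : S_j_gau) (hm : S_j_meas) (a : JA q t0 b z θ U v) (σ : P → Option Lab) :
    Integrable (q.G1 (mu0 m) p b z U σ (bg (q.n b) z + cf θ + v)) (mu0 m) ∧
    ‖∫ ω, q.G1 (mu0 m) p b z U σ (bg (q.n b) z + cf θ + v) ω ∂mu0 m‖ ≤
      jb1 q ν ρ b θ U σ * 2 ^ U.card :=
  jb_int J a.ok a.pm.1 ((jb_meas hm J a.ok a.pm z _).2 σ).aestronglyMeasurable (J.jb1n b θ U σ)
    (J.maj1 N h_e0 hlw hg a σ)

theorem sq (J : JC q t0 m p β1 β2 ν ρ y) : 4 * (18 + 2 * q.C0 ^ 2) ≤ Real.sqrt q.C :=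
  Real.le_sqrt_of_sq_le J.CS

theorem pw (J : JC q t0 m p β1 β2 ν ρ y) (k : ℕ) :
    (16 * q.A)⁻¹ ^ k * 2 ^ k * 2 ^ k * 2 ^ k ≤ q.A⁻¹ ^ k := by
  have hA : 0 < q.A := by linarith [J.A]
  rw [← mul_pow, ← mul_pow, ← mul_pow]
  refine pow_le_pow_left₀ (by positivity) ?_ _
  have : 0 < q.A⁻¹ := by positivity
  rw [mul_inv]; linarith

theorem pw1 (J : JC q t0 m p β1 β2 ν ρ y) (k : ℕ) :
    (16 * q.A)⁻¹ ^ k * 2 ^ k ≤ q.A⁻¹ ^ k ∧ (16 * q.A)⁻¹ ^ k * 2 ^ k * 2 ^ k ≤ q.A⁻¹ ^ k := by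
  have hA : 0 < q.A := by linarith [J.A]
  have h2 : (1 : ℝ) ≤ 2 ^ k := one_le_pow₀ one_le_two
  have h3 : (16 * q.A)⁻¹ ^ k * 2 ^ k * 2 ^ k ≤ q.A⁻¹ ^ k :=
    (le_mul_of_one_le_right (by positivity) h2).trans (J.pw k)
  exact ⟨(le_mul_of_one_le_right (by positivity) h2).trans h3, h3⟩

theorem rb0 (J : JC q t0 m p β1 β2 ν ρ y) (N : JN q) (h_one : S_one) (h_e0 : S_e0)
    (hlw : S_j_lw) (hg : S_j_gau) (hm : S_j_meas) (a : JA q t0 b z θ U v) (s : Lab) {β : ℝ}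
    (h0 : β2 ≤ β) (h1 : β ≤ β1)
    (he : ∀ ω, ∀ B ∈ U, ‖q.Er p b z (bg (q.n b) z + cf θ + v) s B ω‖ ≤ β * (y b B ω * q.gT θ B)) :
    ‖∫ ω, q.G0 (mu0 m) p b z U s (bg (q.n b) z + cf θ + v) ω ∂mu0 m‖ ≤
      3 / 4 * q.C * β * q.A⁻¹ ^ U.card * ∏ B ∈ U, q.gT θ B := by
  have hβ : 0 ≤ β := J.b2.trans h0
  have hb2 := J.b2
  have hA : 0 < q.A := by linarith [J.A]
  have hC0 := J.C0
  have hC1 := J.C1
  have hl := J.B.lam s
  have hg0 := jb_gT q θ U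
  have hi := J.int0 N h_one h_e0 hlw hg hm a s
  have hk : β2 / 1000 + Real.sqrt q.C * (2 * β + p.lam s * q.C0 + β2) ^ 2 ≤ q.C * β / 2 := by
    have hs := J.sq
    have hβ1 : β ≤ 1 := by linarith [J.b1, J.e1]
    have e1 : (2 * β + p.lam s * q.C0 + β2) ^ 2 ≤ (3 * β + p.lam s * q.C0) ^ 2 :=
      pow_le_pow_left₀ (by have := hl.1; positivity) (by linarith) 2
    have e2 : (3 * β + p.lam s * q.C0) ^ 2 ≤ 18 * β ^ 2 + 2 * (p.lam s ^ 2 * q.C0 ^ 2) := by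
      nlinarith [sq_nonneg (3 * β - p.lam s * q.C0)]
    have e3 : p.lam s ^ 2 * q.C0 ^ 2 ≤ β * q.C0 ^ 2 :=
      mul_le_mul_of_nonneg_right (hl.2.2.trans h0) (sq_nonneg _)
    have e4 : (2 * β + p.lam s * q.C0 + β2) ^ 2 ≤ Real.sqrt q.C / 4 * β := by nlinarith
    have e5 := mul_le_mul_of_nonneg_left e4 (Real.sqrt_nonneg q.C)
    have e6 : Real.sqrt q.C * Real.sqrt q.C = q.C := Real.mul_self_sqrt (by linarith)
    nlinarith
  have hk0 : 0 ≤ β2 / 1000 + Real.sqrt q.C * (2 * β + p.lam s * q.C0 + β2) ^ 2 := by positivity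
  have hr := mul_le_mul hk (J.pw1 U.card).1 (by positivity) (by nlinarith)
  have hG := fun ω => J.G0 N h_one h_e0 hlw hg a s ω hβ h1 (he ω)
  simp only [prod_mul_distrib, mul_comm (∏ B ∈ U, y b B _), ← mul_assoc] at hG
  have hCβ : 0 ≤ q.C * β * q.A⁻¹ ^ U.card := by
    have : 0 ≤ q.C := by linarith
    positivity
  split_ifs at hG with hc
  · obtain ⟨B, rfl⟩ := card_eq_one.1 hc
    obtain ⟨-, g2, g3⟩ := J.gau hg a s (mem_singleton_self B)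
    simp only [sum_singleton] at hG
    have h2 := (jb_int J a.ok a.pm.1 (hi.sub g2).aestronglyMeasurable
      (mul_nonneg (by positivity) hg0) hG).2
    simp only [Pi.sub_apply] at h2
    rw [integral_sub hi g2] at h2
    have h3 := norm_add_le_of_le h2 g3
    rw [sub_add_cancel] at h3
    refine h3.trans ?_
    simp only [card_singleton, pow_one, prod_singleton] at hr hg0 ⊢
    have e1 : p.lam s ^ 2 * q.C0 ≤ β * q.C0 :=
      mul_le_mul_of_nonneg_right (hl.2.2.trans h0) hC0.le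
    have e2 : (4 + q.C0) ≤ q.C / 4 * q.A⁻¹ := by
      rw [← div_eq_mul_inv, le_div_iff₀ hA]; linarith [J.CA]
    have e3 := mul_le_mul_of_nonneg_right e2 hβ
    have e4 : (2 * β + (β2 / 1000 + Real.sqrt q.C * (2 * β + p.lam s * q.C0 + β2) ^ 2) *
        (16 * q.A)⁻¹) * 2 + p.lam s ^ 2 * q.C0 ≤ 3 / 4 * q.C * β * q.A⁻¹ := by nlinarith
    nlinarith [mul_le_mul_of_nonneg_right e4 hg0]
  · simp only [sub_zero, zero_add] at hG
    refine (jb_int J a.ok a.pm.1 hi.aestronglyMeasurable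
      (mul_nonneg (by positivity) hg0) hG).2.trans ?_
    nlinarith [mul_le_mul_of_nonneg_right hr hg0, mul_nonneg hCβ hg0]

theorem bN (J : JC q t0 m p β1 β2 ν ρ y) (N : JN q) (h_e0 : S_e0) (hlw : S_j_lw) (hg : S_j_gau)
    (hm : S_j_meas) (a : JA q t0 b z θ U v) (σ : P → Option Lab) :
    ‖rbN (mu0 m) 1 0 (box (q.m b 0)) (q.inp0 (mu0 m) p b z (bg (q.n b) z + cf θ + v)) U σ‖ ≤
      ν * ρ ^ ncor (q.m b 0) U * q.A⁻¹ ^ U.card * Real.exp (q.κ * Reg q.L U θ) := by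
  have hA : 0 < q.A := by linarith [J.A]
  have hρ : 0 < ρ := by linarith [J.r1]
  have hν := J.n0
  unfold rbN
  split_ifs with h
  · rw [ju_rb1]
    refine (J.int1 N h_e0 hlw hg hm a σ).2.trans ?_
    unfold jb1
    rw [if_pos h, mul_right_comm]
    refine mul_le_mul ?_ (ja_reg q J.L1 J.k0.le θ U) (jb_gT q θ U) (by positivity)
    have h1 := ja_jw (q.m b 0) J.r1 U
    have h2 := (J.pw1 U.card).2
    calc _ ≤ ν * (16 * q.A)⁻¹ ^ U.card * (ρ ^ ncor (q.m b 0) U * 2 ^ U.card) * 2 ^ U.card := by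
          refine mul_le_mul_of_nonneg_right (mul_le_mul (mul_le_mul_of_nonneg_right (by linarith)
            (by positivity)) h1 (prod_nonneg fun B _ => zero_le_one.trans (J.jw1 _ B))
            (by positivity)) (by positivity)
      _ = ν * ρ ^ ncor (q.m b 0) U * ((16 * q.A)⁻¹ ^ U.card * 2 ^ U.card * 2 ^ U.card) := by ring
      _ ≤ _ := mul_le_mul_of_nonneg_left h2 (by positivity)
  · rw [norm_zero]; positivity

theorem bK (J : JC q t0 m p β1 β2 ν ρ y) (N : JN q) (h_one : S_one) (h_e0 : S_e0)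
    (hlw : S_j_lw) (hg : S_j_gau) (hm : S_j_meas) (a : JA q t0 b z θ U v) (s : Lab) {β : ℝ}
    (h0 : β2 ≤ β) (h1 : β ≤ β1)
    (he : ∀ ω, ∀ B ∈ U, ‖q.Er p b z (bg (q.n b) z + cf θ + v) s B ω‖ ≤ β * (y b B ω * q.gT θ B)) :
    ‖rbK (mu0 m) 1 0 (box (q.m b 0)) (q.inp0 (mu0 m) p b z (bg (q.n b) z + cf θ + v)) s U‖ ≤
      q.C * β * q.A⁻¹ ^ U.card * Real.exp (q.κ * Reg q.L U θ) := by
  have hA : 0 < q.A := by linarith [J.A]
  have hρ : 0 < ρ := by linarith [J.r1]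
  have hν := J.n0
  have hβ : 0 ≤ β := J.b2.trans h0
  have hC : 0 ≤ q.C := by linarith [J.C0, J.C1]
  have hg0 := jb_gT q θ U
  have hs : 4 ≤ Real.sqrt q.C := by nlinarith [J.sq, sq_nonneg q.C0]
  refine le_trans ?_ (mul_le_mul_of_nonneg_left (ja_reg q J.L1 J.k0.le θ U) (by positivity))
  have h2 := J.rb0 N h_one h_e0 hlw hg hm a s h0 h1 he
  have h3 : 0 ≤ q.C * β * q.A⁻¹ ^ U.card * ∏ B ∈ U, q.gT θ B := by positivity
  unfold rbK
  rw [ju_rb0]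
  split_ifs with h
  swap
  · rw [add_zero]; linarith
  refine (norm_add_le _ _).trans ?_
  rw [ju_rb1, norm_mul]
  have hw := ja_jw (q.m b 0) J.r1 U
  have hw0 : 0 ≤ ∏ B ∈ U, jw (q.m b 0) ρ B := prod_nonneg fun B _ => zero_le_one.trans (J.jw1 _ B)
  have h4 : ‖Complex.exp (∑ B ∈ U, (q.inp0 (mu0 m) p b z (bg (q.n b) z + cf θ + v)).d' s B)‖ ≤
      ρ ^ ncor (q.m b 0) U * 2 ^ U.card := by
    rw [Complex.exp_sum, norm_prod]
    refine (prod_le_prod (fun _ _ => norm_nonneg _) fun B hB => ?_).trans hw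
    rw [Complex.norm_exp]
    exact (Real.exp_le_exp.2 (le_abs_self _)).trans (J.dw h_e0 a.ok (a.pm.1 hB) s)
  have h5 : jb1 q ν ρ b θ U (cst (box (q.m b 0)) U s) ≤ Real.sqrt q.C * ν *
      (16 * q.A)⁻¹ ^ U.card * (ρ ^ ncor (q.m b 0) U * 2 ^ U.card) * ∏ B ∈ U, q.gT θ B := by
    refine mul_le_mul_of_nonneg_right (mul_le_mul (mul_le_mul_of_nonneg_right ?_ (by positivity))
      hw hw0 (by positivity)) hg0
    split_ifs
    · nlinarith
    · exact le_rfl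
  have h6 := mul_le_mul h4 ((J.int1 N h_e0 hlw hg hm a _).2.trans
    (mul_le_mul_of_nonneg_right h5 (by positivity))) (norm_nonneg _) (by positivity)
  have h7 : ν * (ρ ^ ncor (q.m b 0) U * ρ ^ ncor (q.m b 0) U) ≤ β := by
    rw [← pow_add]
    exact (mul_le_mul_of_nonneg_left (pow_le_pow_right₀ J.r1
      (by linarith [ja_ncor (q.m b 0) U])) hν).trans (J.nr.trans h0)
  have h8 : Real.sqrt q.C ≤ q.C / 4 := by nlinarith [Real.mul_self_sqrt hC]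
  have h9 := mul_le_mul_of_nonneg_right (mul_le_mul (mul_le_mul h8 h7 (by positivity)
    (by positivity)) (J.pw U.card) (by positivity) (by positivity)) hg0
  nlinarith

end JC

end Pool.Agent.Lib.MP_9cc147_pr.Cx
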