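import Pool.Agent.Lib.MP_9cc147_pr.Cx.J.S
import Pool.Agent.Lib.MP_9cc147_pr.Cx.J.Geo

/-! The Gaussian part of a marked tile. -/

open scoped Classical Topology ComplexConjugate
open Finset MeasureTheory ProbabilityTheory Filter

noncomputable section
namespace Pool.Agent.Lib.MP_9cc147_pr.Cx

theorem jgau_core {A X : ℂ} {lam κ W : ℝ} (k0 : 0 < κ) (k1 : κ ≤ 1) (l0 : 0 ≤ lam)
    (l1 : lam ≤ κ / 100) (w0 : 0 ≤ W) (hA : ‖A‖ ≤ Real.exp (4 * lam * W))
    (hX : ‖X‖ ≤ 4 * lam * W) :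
    ‖A * (Complex.exp X - 1)‖ ≤ lam * (10 ^ 4 / κ ^ 2) * Real.exp (κ * W) ∧
    ‖A * (Complex.exp X - 1 - X)‖ ≤ lam ^ 2 * (5000 / κ ^ 2) * Real.exp (κ * W) := by
  have h1 := Complex.norm_exp_sub_sum_le_norm_mul_exp X 1
  have h2 := Complex.norm_exp_sub_sum_le_norm_mul_exp X 2
  simp only [sum_range_succ, range_zero, sum_empty, pow_zero, pow_one, Nat.factorial_zero,
    Nat.factorial_one, Nat.cast_one, div_one, zero_add, ← sub_sub] at h1 h2
  set E := Real.exp (κ * W / 4) with hE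
  have e0 : 0 < E := Real.exp_pos _
  have e4 : Real.exp (κ * W) = E ^ 4 := by rw [hE, ← Real.exp_nat_mul]; congr 1; push_cast; ring
  have a1 : 4 * lam * W ≤ κ * W / 4 := by nlinarith
  have a2 : ‖A‖ ≤ E := hA.trans (Real.exp_le_exp.2 a1)
  have a3 : Real.exp ‖X‖ ≤ E := Real.exp_le_exp.2 (hX.trans a1)
  have a4 : κ * W / 4 + 1 ≤ E := Real.add_one_le_exp _
  have a5 : 1 ≤ E := by nlinarith [mul_nonneg k0.le w0]
  have a6 : ‖X‖ ≤ lam * (16 / κ) * E := by
    refine hX.trans ?_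
    have : W ≤ 4 / κ * E := by rw [div_mul_eq_mul_div, le_div_iff₀ k0]; linarith
    calc 4 * lam * W ≤ 4 * lam * (4 / κ * E) := by gcongr
      _ = _ := by ring
  constructor
  · rw [norm_mul, e4]
    have c : 16 / κ ≤ 10 ^ 4 / κ ^ 2 := by
      rw [div_le_div_iff₀ k0 (by positivity)]; nlinarith
    calc ‖A‖ * ‖Complex.exp X - 1‖ ≤ E * (lam * (16 / κ) * E * E) := by
          refine mul_le_mul a2 (h1.trans ?_) (norm_nonneg _) e0.le
          gcongr
      _ = lam * (16 / κ) * (E ^ 3 * 1) := by ring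
      _ ≤ lam * (10 ^ 4 / κ ^ 2) * (E ^ 3 * E) := by gcongr
      _ = _ := by ring
  · rw [norm_mul, e4]
    calc ‖A‖ * ‖Complex.exp X - 1 - X‖ ≤ E * ((lam * (16 / κ) * E) ^ 2 * E) := by
          refine mul_le_mul a2 (h2.trans ?_) (norm_nonneg _) e0.le
          gcongr
      _ = lam ^ 2 * (256 / κ ^ 2) * E ^ 4 := by ring
      _ ≤ _ := by gcongr; norm_num

/-- the cross term of the energy -/
def jgauB (f g : Fld) (S : Finset P) : ℂ := ∑ x ∈ S, ∑ d, dg f x d * dg g x d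

theorem jgau_dg (f g : Fld) (x : P) (d : Fin 4) : dg (f + g) x d = dg f x d + dg g x d := by
  simp only [dg, Pi.add_apply]; ring

theorem jgau_En_add (f g : Fld) (S : Finset P) :
    En (f + g) S = En f S + (jgauB f g S + En g S) := by
  simp only [En, jgauB, ← sum_add_distrib, jgau_dg, Fin.sum_univ_four]
  exact sum_congr rfl fun x _ => by ring

theorem jgau_En_le (f : Fld) (S : Finset P) : ‖En f S‖ ≤ ∑ x ∈ S, n1 f x := by
  refine (norm_sum_le _ _).trans (sum_le_sum fun x _ => ?_)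
  rw [norm_mul, n1]
  refine mul_le_mul (by simp) ((norm_sum_le _ _).trans (sum_le_sum fun d _ => ?_))
    (norm_nonneg _) (by norm_num)
  rw [norm_pow]

theorem jgau_B_le (f g : Fld) (S : Finset P) :
    ‖jgauB f g S‖ ≤ ∑ x ∈ S, n1 f x + ∑ x ∈ S, n1 g x := by
  rw [← sum_add_distrib]
  refine (norm_sum_le _ _).trans (sum_le_sum fun x _ => ?_)
  rw [n1, n1, mul_sum, mul_sum, ← sum_add_distrib]
  refine (norm_sum_le _ _).trans (sum_le_sum fun d _ => ?_)
  rw [norm_mul]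
  nlinarith [sq_nonneg (‖dg f x d‖ - ‖dg g x d‖)]

theorem jgau_n1_add (f g h : Fld) (x : P) :
    n1 (f + g + h) x ≤ 3 * (n1 f x + n1 g x + n1 h x) := by
  simp only [n1, mul_sum, ← sum_add_distrib, jgau_dg]
  refine sum_le_sum fun d _ => ?_
  have := pow_le_pow_left₀ (norm_nonneg _)
    (norm_add₃_le (a := dg f x d) (b := dg g x d) (c := dg h x d)) 2
  nlinarith [sq_nonneg (‖dg f x d‖ - ‖dg g x d‖), sq_nonneg (‖dg f x d‖ - ‖dg h x d‖),
    sq_nonneg (‖dg g x d‖ - ‖dg h x d‖)]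

theorem jgau_bg {n : ℕ} (hu : ∀ p, 0 ≤ uu n p ∧ uu n p ≤ 1) {z : ℂ} (hz : ‖z‖ ≤ 1) (L : ℕ)
    (B : P) : ∑ x ∈ cell L B, n1 (bg n z) x ≤ 2 * (L : ℝ) ^ 2 := by
  have h : ∀ x ∈ cell L B, n1 (bg n z) x ≤ 2 := by
    intro x _
    have : ∀ d ∈ (univ : Finset (Fin 4)), ‖dg (bg n z) x d‖ ^ 2 ≤ 1 := by
      intro d _
      refine pow_le_one₀ (norm_nonneg _) ?_
      simp only [dg, bg]
      rw [← mul_sub, norm_mul, ← Complex.ofReal_sub, Complex.norm_real, Real.norm_eq_abs]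
      refine mul_le_one₀ hz (abs_nonneg _) (abs_le.2 ⟨?_, ?_⟩) <;>
        linarith [hu (x + crn (d + 1)), hu (x + crn d)]
    have := sum_le_card_nsmul _ _ _ this
    simp only [card_univ, Fintype.card_fin, nsmul_eq_mul, mul_one] at this
    unfold n1
    push_cast at this
    linarith
  refine (sum_le_card_nsmul _ _ _ h).trans (le_of_eq ?_)
  have c : ∀ a : ℤ, #(Ico (a * L) ((a + 1) * L)) = L := by
    intro a; rw [Int.card_Ico, show (a + 1) * L - a * L = (L : ℤ) by ring, Int.toNat_natCast]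
  rw [cell, card_product, c, c, nsmul_eq_mul]; push_cast; ring

theorem jgau_v (L : ℕ) (v : Fld) (B : P) : ∑ x ∈ cell L B, n1 v x ≤ Nf L v (nb L B) := by
  have s : cell L B ⊆ nb L B := by
    intro x hx
    simp only [cell, nb, fat, mem_product, mem_Ico, mem_Icc] at hx ⊢
    omega
  refine (sum_le_sum_of_subset_of_nonneg s fun x _ _ => jg_n1_nonneg v x).trans
    (sum_le_sum fun x _ => ?_)
  have : 0 ≤ n2 v x := by unfold n2; positivity
  nlinarith [sq_nonneg (L : ℝ)]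

theorem jgau_mdg {n : ℕ} (h : Measurable (zw n)) (x : P) (d : Fin 4) :
    Measurable fun ω => dg (cf (zw n ω)) x d := by
  unfold dg cf
  exact (Complex.measurable_ofReal.comp ((measurable_pi_apply _).comp h)).sub
    (Complex.measurable_ofReal.comp ((measurable_pi_apply _).comp h))

theorem t_j_gau (h_u : S_u) (h_e0 : S_e0) (h_zel : S_zel) : S_j_gau := by
  intro q m _ b z θ v B lam y hL k0 k1 hb hB hm hz hv l0 l1 hy iy iy2
  have hn : 2 ≤ q.n b := by
    have h1 : 1 ≤ b.1 := by rcases hb.1 with h | h <;> omega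
    have h2 : q.L ≤ q.L ^ (b.2 + 2) := Nat.le_self_pow (by omega) _
    unfold Par.n
    nlinarith
  obtain ⟨Cu, hu⟩ := h_u
  have hu := (hu _ hn).2.1
  obtain ⟨-, ⟨-, mz, -⟩, hneg, -, hmp⟩ := h_zel.2 q.L (q.n b) 0 hL (by omega)
  have hmp := (hmp m hm).1
  have hE := (h_e0 q m b B hL hb hB).2.1
  set μ := mu0 m with hμ
  have : IsProbabilityMeasure μ := by
    rw [hμ, mu0]
    have : ∀ i : ℕ × P, IsProbabilityMeasure (if i.1 < 4 then m else gaussianReal 0 1) := by
      intro i; split_ifs <;> infer_instance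
    infer_instance
  set S := cell q.L B with hS
  set Θ := bg (q.n b) z + cf θ + v with hΘ
  set Z : Om → ℝ := fun ω => ∑ x ∈ S, n1 (cf (zw (q.n b) ω)) x with hZ
  set T : ℝ := ∑ x ∈ S, n1 (cf θ) x with hT
  set A := q.Ih b 0 z lam B Θ with hA
  set X : Om → ℂ := fun ω => -(lam / 2 : ℂ) *
    (jgauB Θ (cf (zw (q.n b) ω)) S + En (cf (zw (q.n b) ω)) S - E0 q μ b B) with hX
  have z0 : ∀ ω, 0 ≤ Z ω := fun ω => sum_nonneg fun x _ => jg_n1_nonneg _ x
  have t0 : 0 ≤ T := sum_nonneg fun x _ => jg_n1_nonneg _ x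
  have b1 := jgau_bg hu hz q.L B
  have b2 : ∑ x ∈ S, n1 Θ x ≤ 3 * (2 * (q.L : ℝ) ^ 2 + T + q.h ^ 2) := by
    refine (sum_le_sum fun x _ => jgau_n1_add _ _ _ x).trans ?_
    rw [← mul_sum, sum_add_distrib, sum_add_distrib]
    linarith [jgau_v q.L v B]
  have nl : ‖-(lam / 2 : ℂ)‖ = lam / 2 := by
    rw [norm_neg, norm_div, Complex.norm_real, Real.norm_of_nonneg l0]; simp
  have sL := sq_nonneg (q.L : ℝ)
  have sh := sq_nonneg q.h
  have eG : ∀ ω, q.Gm μ b z lam B Θ ω = A * (Complex.exp (X ω) - 1) := by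
    intro ω
    simp only [Par.Gm, hA, hX, Par.Ih, Par.Qz, jg_l, jgau_En_add, ← hS]
    rw [mul_sub _ _ 1, mul_one, ← Complex.exp_add, ← Complex.exp_add]
    congr 2
    ring
  have key : ∀ ω, ‖A * (Complex.exp (X ω) - 1)‖ ≤ lam * q.C0 * y ω * q.gT θ B ∧
      ‖A * (Complex.exp (X ω) - 1 - X ω)‖ ≤ lam ^ 2 * q.C0 * q.gT θ B / 2 * y ω := by
    intro ω
    have zz := z0 ω
    have a1 : ‖A‖ ≤ Real.exp (4 * lam * (T + Z ω + (q.L ^ 2 + q.h ^ 2))) := by
      refine (Complex.norm_exp_le_exp_norm _).trans (Real.exp_le_exp.2 ?_)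
      have : ‖q.Qz b 0 z B Θ‖ ≤ 8 * (T + Z ω + (q.L ^ 2 + q.h ^ 2)) := by
        simp only [Par.Qz, jg_l]
        refine (norm_sub_le _ _).trans ?_
        have c1 := jgau_En_le Θ S
        have c2 := jgau_En_le (bg (q.n b) z) S
        split_ifs
        · linarith
        · rw [norm_zero]; linarith
      rw [norm_mul, nl]
      nlinarith
    have a2 : ‖X ω‖ ≤ 4 * lam * (T + Z ω + (q.L ^ 2 + q.h ^ 2)) := by
      have : ‖jgauB Θ (cf (zw (q.n b) ω)) S + En (cf (zw (q.n b) ω)) S - E0 q μ b B‖ ≤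
          8 * (T + Z ω + (q.L ^ 2 + q.h ^ 2)) := by
        refine (norm_sub_le _ _).trans ((add_le_add_left (norm_add_le _ _) _).trans ?_)
        linarith [jgau_B_le Θ (cf (zw (q.n b) ω)) S, jgau_En_le (cf (zw (q.n b) ω)) S]
      simp only [hX]
      rw [norm_mul, nl]
      nlinarith
    obtain ⟨c1, c2⟩ := jgau_core k0 k1 l0 l1 (by positivity) a1 a2
    have y0 : 0 ≤ y ω := (Real.exp_pos _).le.trans (hy ω)
    have e : Real.exp (q.κ * (T + Z ω + (q.L ^ 2 + q.h ^ 2))) ≤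
        q.gT θ B * y ω * Real.exp (q.L ^ 2 + q.h ^ 2) := by
      rw [mul_add, mul_add, Real.exp_add, Real.exp_add]
      refine mul_le_mul (mul_le_mul_of_nonneg_left (hy ω) (Real.exp_pos _).le)
        (Real.exp_le_exp.2 (by nlinarith)) (Real.exp_pos _).le
        (mul_nonneg (Real.exp_pos _).le y0)
    exact ⟨c1.trans ((mul_le_mul_of_nonneg_left e (by positivity)).trans_eq
        (by unfold Par.C0; ring)),
      c2.trans ((mul_le_mul_of_nonneg_left e (by positivity)).trans_eq (by unfold Par.C0; ring))⟩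
  have md := jgau_mdg mz
  have mB : Measurable fun ω => jgauB Θ (cf (zw (q.n b) ω)) S :=
    Finset.measurable_sum _ fun x _ => Finset.measurable_sum _ fun d _ => (md x d).const_mul _
  have mE : Measurable fun ω => En (cf (zw (q.n b) ω)) S :=
    Finset.measurable_sum _ fun x _ =>
      (Finset.measurable_sum _ fun d _ => (md x d).pow_const _).const_mul _
  have mX : Measurable X := ((mB.add mE).sub_const _).const_mul _
  have zy : ∀ ω, Z ω ≤ y ω / q.κ := by
    intro ω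
    rw [le_div_iff₀ k0]
    linarith [Real.add_one_le_exp (q.κ * Z ω), hy ω]
  have iB : Integrable (fun ω => jgauB Θ (cf (zw (q.n b) ω)) S) μ :=
    ((integrable_const (∑ x ∈ S, n1 Θ x)).add (iy.div_const q.κ)).mono' mB.aestronglyMeasurable
      (.of_forall fun ω => (jgau_B_le _ _ _).trans (add_le_add_right (zy ω) _))
  have iE : Integrable (fun ω => En (cf (zw (q.n b) ω)) S) μ :=
    (iy.div_const q.κ).mono' mE.aestronglyMeasurable
      (.of_forall fun ω => (jgau_En_le _ _).trans (zy ω))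
  have iX : Integrable X μ := ((iB.add iE).sub (integrable_const _)).const_mul _
  have B0 : ∫ ω, jgauB Θ (cf (zw (q.n b) ω)) S ∂μ = 0 := by
    have h1 := hmp.integral_comp' (f := MeasurableEquiv.neg Om)
      fun ω => jgauB Θ (cf (zw (q.n b) ω)) S
    have h2 : ∀ ω, jgauB Θ (cf (zw (q.n b) (MeasurableEquiv.neg Om ω))) S =
        -jgauB Θ (cf (zw (q.n b) ω)) S := by
      intro ω
      have : zw (q.n b) (MeasurableEquiv.neg Om ω) = -zw (q.n b) ω := (hneg ω).2.1
      simp only [this, jgauB, ← sum_neg_distrib, dg, cf, Pi.neg_apply]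
      refine sum_congr rfl fun x _ => sum_congr rfl fun d _ => ?_
      push_cast; ring
    simp only [h2, integral_neg] at h1
    linear_combination -h1 / 2
  have X0 : ∫ ω, X ω ∂μ = 0 := by
    have iS : Integrable (fun ω => jgauB Θ (cf (zw (q.n b) ω)) S + En (cf (zw (q.n b) ω)) S) μ :=
      iB.add iE
    simp only [hX]
    rw [integral_const_mul, integral_sub iS (integrable_const _), integral_add iB iE, B0]
    simp [E0, hS]
  have eG' : q.Gm μ b z lam B Θ = fun ω => A * (Complex.exp (X ω) - 1) := funext eG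
  have iG : Integrable (fun ω => A * (Complex.exp (X ω) - 1)) μ :=
    ((iy.const_mul (lam * q.C0)).mul_const (q.gT θ B)).mono'
      ((mX.cexp.sub_const 1).const_mul A).aestronglyMeasurable (.of_forall fun ω => (key ω).1)
  rw [eG']
  refine ⟨fun ω => (key ω).1, iG, ?_⟩
  have e : ∫ ω, A * (Complex.exp (X ω) - 1) ∂μ = ∫ ω, A * (Complex.exp (X ω) - 1 - X ω) ∂μ := by
    simp only [mul_sub A _ (X _)]
    rw [integral_sub iG (iX.const_mul A), integral_const_mul A X, X0, mul_zero, sub_zero]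
  rw [e]
  refine (norm_integral_le_of_norm_le (iy.const_mul _) (.of_forall fun ω => (key ω).2)).trans ?_
  rw [integral_const_mul]
  have : 0 ≤ lam ^ 2 * q.C0 * q.gT θ B := by unfold Par.C0 Par.gT; positivity
  nlinarith

end Pool.Agent.Lib.MP_9cc147_pr.Cx
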