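import Pool.Agent.Lib.MP_9cc147_pr.Cx.J.S
import Pool.Agent.Lib.MP_9cc147_pr.Cx.J.Geo
import Pool.Agent.Lib.MP_9cc147_pr.Cx.G.S

/-! The partition function identity of the first step. -/

open scoped Classical Topology
open Finset MeasureTheory ProbabilityTheory Filter

noncomputable section
namespace Pool.Agent.Lib.MP_9cc147_pr.Cx

theorem ji_cell (B : P) : cell 1 B = {B} := by
  ext x
  rw [jg_cell, mem_singleton, Prod.ext_iff]
  push_cast
  omega

theorem ji_under (D : Finset P) : under 1 D = D := by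
  ext x
  simp [under, ji_cell]

theorem ji_comps_sub {Y X : Finset P} (h : X ∈ comps Y) : X ⊆ Y := by
  obtain ⟨a, -, rfl⟩ := mem_image.1 h
  exact filter_subset _ _

theorem ji_Wsum_congr {R : Finset P} {I I' : Lab → P → ℂ} {K K' : Lab → Finset P → ℂ}
    (N : Finset P → (P → Option Lab) → ℂ) (hI : ∀ s, ∀ B ∈ R, I s B = I' s B)
    (hK : ∀ s X, X ⊆ R → K s X = K' s X) : Wsum R I K N = Wsum R I' K' N := by
  refine sum_congr rfl fun c _ => ?_
  congr 2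
  · exact prod_congr rfl fun s _ => prod_congr rfl fun B hB => hI s B (mem_filter.1 hB).1
  · exact prod_congr rfl fun s _ => prod_congr rfl fun X hX =>
      hK s X ((ji_comps_sub hX).trans (filter_subset _ _))

theorem ji_fat_nr {L : ℕ} (hL : 1 ≤ L) {x y p : P} (hx : p ∈ fat L 0 x) (hy : p ∈ fat L 0 y) :
    nr 1 x y := by
  rw [jg_fat] at hx hy
  have h : (0 : ℤ) < L := by exact_mod_cast hL
  have e : ∀ a b c : ℤ, a * L ≤ c → c ≤ (b + 1) * L → a ≤ b + 1 := fun a b c h1 h2 =>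
    le_of_mul_le_mul_right (h1.trans h2) h
  have a1 := e _ _ _ hx.1.1 hy.1.2
  have a2 := e _ _ _ hy.1.1 hx.1.2
  have a3 := e _ _ _ hx.2.1 hy.2.2
  have a4 := e _ _ _ hy.2.1 hx.2.2
  constructor <;> rw [abs_le] <;> push_cast <;> constructor <;> omega

theorem ji_dep {q : Par} {U : Finset P} {F : Fld → Om → ℂ} (h : q.Loc0 U F) (Θ : Fld) :
    Dep (↑(U.biUnion (fat q.L 0)) : Set P) (F Θ) :=
  ⟨h.1.comp (measurable_const.prodMk measurable_id), fun ω ω' hω =>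
    h.2 Θ Θ ω ω' fun p hp => ⟨rfl, fun i => hω i p hp⟩⟩

theorem ji_It_ne (q : Par) (μ : Measure Om) (p : Par.Pre) (b : ℕ × ℕ) (z : ℂ) (Θ : Fld) (s : Lab)
    (B : P) : q.It0 μ p b z Θ s B ≠ 0 :=
  mul_ne_zero (Complex.exp_ne_zero _) (Complex.exp_ne_zero _)

theorem t_j_id (hi : S_g_inp) (hm : S_j_meas) : S_j_id := by
  intro q t0 m _ p b z Θ hL hS hb hint hd
  have hL1 : 1 ≤ q.L := by omega
  have key := (hi m 1 0 (box (q.m b 0)) (q.inp0 (mu0 m) p b z Θ)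
    (fun U => (↑(U.biUnion (fat q.L 0)) : Set P)) (fun s B => q.Ih b 0 z (p.lam s) B Θ)
    (p.I b z Θ) (p.K b z Θ) le_rfl ?_ ?_ ?_ ?_ ?_ ?_ ?_).2
  · rw [ji_under] at key
    refine Eq.trans ?_ key
    unfold Par.Wpre
    refine integral_congr_ae (Eventually.of_forall fun ω => ?_)
    have h0 : ∀ s, ∀ B ∈ box (q.m b 0), (q.inp0 (mu0 m) p b z Θ).d s B = 0 := fun s B hB =>
      sub_eq_zero.2 (hd s B hB)
    refine ji_Wsum_congr _ (fun s B hB => ?_) fun s X hX => ?_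
    · rw [h0 s B hB, neg_zero, Complex.exp_zero, one_mul]
    · rw [sum_eq_zero fun B hB => h0 s B (hX hB), neg_zero, Complex.exp_zero, one_mul]
  · intro ω s B _
    have := ji_It_ne q (mu0 m) p b z Θ s B
    show _ = q.It0 (mu0 m) p b z Θ s B * (1 + (p.I b z Θ ω s B / q.It0 (mu0 m) p b z Θ s B - 1))
    field_simp
    ring
  · intro ω s X _
    exact (div_mul_cancel₀ _ (prod_ne_zero_iff.2 fun B _ => ji_It_ne q (mu0 m) p b z Θ s B)).symm
  · intro s B _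
    rw [ji_cell, prod_singleton, sum_singleton]
    rfl
  · intro s B _
    rw [ji_cell, sum_singleton]
    show q.d0 (mu0 m) p b s B = q.d0 (mu0 m) p b s B - q.D0 (mu0 m) p b s B +
      q.e0 (mu0 m) p b s B - q.e0 (mu0 m) p b 0 B
    unfold Par.D0
    ring
  · intro U U' _ _ h
    rw [Set.disjoint_left]
    intro x hx hx'
    obtain ⟨u, hu, h1⟩ := mem_biUnion.1 (mem_coe.1 hx)
    obtain ⟨u', hu', h2⟩ := mem_biUnion.1 (mem_coe.1 hx')
    exact h u hu u' hu' (ji_fat_nr hL1 h1 h2)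
  · intro U s hU hc
    exact ⟨ji_dep ((hm q t0 m (mu0 m) p b z U hL1 hS hb ⟨hU, hc⟩).1 s) Θ, (hint U ⟨hU, hc⟩).1 s⟩
  · intro U σ hU hc
    exact ⟨ji_dep ((hm q t0 m (mu0 m) p b z U hL1 hS hb ⟨hU, hc⟩).2 σ) Θ, (hint U ⟨hU, hc⟩).2 σ⟩

end Pool.Agent.Lib.MP_9cc147_pr.Cx
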