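import Pool.Agent.Lib.MP_9cc147_pr.Cx.J.S
import Pool.Agent.Lib.MP_9cc147_pr.Cx.A.One1

/-! The weight of one local configuration of the first step is the product of its atoms. -/

open scoped Classical
open Finset

noncomputable section
namespace Pool.Agent.Lib.MP_9cc147_pr.Cx

theorem jl_par (a : P) : par 1 a = a := by simp [par]

theorem jl_under (U : Finset P) : under 1 U = U := by
  ext b
  rw [one_mem_under le_rfl, jl_par]

theorem jl_comps_ne {Y X : Finset P} (h : X ∈ comps Y) : X.Nonempty := (one_comps_conn h).1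

theorem jl_cover (Y : Finset P) : (comps Y).biUnion id = Y := by
  ext b
  simp only [mem_biUnion, id]
  exact ⟨fun ⟨_, h, hb⟩ => one_comps_sub h hb,
    fun h => ⟨_, one_mem_comps.2 ⟨b, h, rfl⟩, one_self_comp h⟩⟩

theorem jl_prod_comps {α : Type} [CommMonoid α] (Y : Finset P) (f : P → α) :
    ∏ B ∈ Y, f B = ∏ X ∈ comps Y, ∏ B ∈ X, f B := by
  conv_lhs => rw [← jl_cover Y]
  refine prod_biUnion fun X hX X' hX' hne => ?_
  refine disjoint_left.2 fun a ha ha' => hne ?_
  exact one_comps_eq hX hX' ha ha' (one_nr_refl _ _)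

theorem jl_mem_img (R : Finset P) (c : P → Sf) (B : P) :
    B ∈ img 1 0 R c ↔ B ∈ R ∧ ∀ s, c B ≠ some (s, 0) := by
  have h1 : ∀ s, ((comps (pol R (red c) s)).filter fun X => 0 < X.card).biUnion id =
      pol R (red c) s := fun s => by
    rw [filter_true_of_mem fun X hX => card_pos.2 (jl_comps_ne hX), jl_cover]
  have h2 : par 1 = id := funext jl_par
  rw [img, h2, image_id]
  simp only [h1]
  simp only [mem_union, mem_biUnion, mem_univ, true_and, kind, bad, pol, mem_filter, red]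
  rcases c B with _ | ⟨s, i⟩
  · simp
  · fin_cases i <;> simp

theorem jl_split {α : Type} [CommMonoid α] (R : Finset P) (c : P → Sf) (f : P → α) :
    ∏ B ∈ img 1 0 R c, f B = (∏ s, ∏ B ∈ R.filter (fun b => c b = some (s, 1)), f B) *
      (∏ s, ∏ B ∈ pol R (red c) s, f B) * ∏ B ∈ bad R (red c), f B := by
  have h : img 1 0 R c = R.filter fun B => ∀ s, c B ≠ some (s, 0) := by
    ext B
    rw [jl_mem_img, mem_filter]
  rw [h]
  simp only [pol, bad, prod_filter]
  rw [prod_comm (s := univ), prod_comm (s := univ), ← prod_mul_distrib, ← prod_mul_distrib]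
  refine prod_congr rfl fun B _ => ?_
  rcases hB : c B with _ | ⟨s, i⟩
  · simp [red, hB]
  · fin_cases i <;> simp [red, hB]

theorem jl_splitT (R : Finset P) (c : P → Sf) (s : Lab) (f : P → ℂ) :
    ∏ B ∈ (img 1 0 R c).filter (fun b => lab (c b) = some s), f B =
      (∏ B ∈ R.filter (fun b => c b = some (s, 1)), f B) * ∏ B ∈ pol R (red c) s, f B := by
  have h : img 1 0 R c = R.filter fun B => ∀ s, c B ≠ some (s, 0) := by
    ext B
    rw [jl_mem_img, mem_filter]
  rw [h, filter_filter]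
  simp only [pol, prod_filter]
  rw [← prod_mul_distrib]
  refine prod_congr rfl fun B _ => ?_
  rcases hB : c B with _ | ⟨t, i⟩
  · simp [red, lab, hB]
  · by_cases ht : t = s
    · subst ht
      fin_cases i <;> simp [red, lab, hB]
    · simp [red, lab, hB, ht]

theorem jl_kind (R : Finset P) (c : P → Sf) (a : ℝ) :
    a ^ (kind R c 1).card = ∏ s, ∏ _B ∈ R.filter (fun b => c b = some (s, 1)), a := by
  rw [← prod_const, kind]
  simp only [prod_filter]
  rw [prod_comm (s := univ)]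
  refine prod_congr rfl fun B _ => ?_
  rcases c B with _ | ⟨s, i⟩
  · simp
  · fin_cases i <;> simp

theorem jl_pcs (R : Finset P) (c : P → Sf) (g : Finset P → ℝ) :
    ∏ X ∈ pcs R c, g X = ∏ s, ∏ X ∈ comps (pol R (red c) s), g X := by
  refine prod_biUnion fun s _ t _ hne => disjoint_left.2 fun X h h' => hne ?_
  obtain ⟨x, hx⟩ := jl_comps_ne h
  have e1 := (mem_filter.1 (one_comps_sub h hx)).2
  have e2 := (mem_filter.1 (one_comps_sub h' hx)).2
  rw [e1] at e2
  simpa using e2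

theorem jl_fw (c : P → Sf) {X : Finset P} (h : X.Nonempty) : ‖fw 0 c X‖ ≤ 1 := by
  rw [fw, if_neg (not_le.2 (card_pos.2 h))]
  split_ifs <;> simp

theorem jl_norm_prod {ι : Type} (S : Finset ι) (f : ι → ℂ) (g : ι → ℝ)
    (h : ∀ i ∈ S, ‖f i‖ ≤ g i) : ‖∏ i ∈ S, f i‖ ≤ ∏ i ∈ S, g i := by
  rw [norm_prod]
  exact prod_le_prod (fun _ _ => norm_nonneg _) h

theorem t_j_lw : S_j_lw := by
  intro D U T M K N c E Y a p b G hc _ ha hp hb hG hY h1 h2 h3
  obtain ⟨-, -, hU⟩ := mem_filter.1 hc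
  generalize hR : reg 1 D U = R at hU ⊢
  have hin : ∀ B ∈ R, (∀ s, c B ≠ some (s, 0)) → B ∈ U := fun B hB h =>
    hU ▸ (jl_mem_img R c B).2 ⟨hB, h⟩
  have key : (∏ B ∈ U, E B) * lw 1 0 D U T M K N c =
      (∏ s, ∏ B ∈ R.filter (fun b => c b = some (s, 1)), E B * T s B * M s B) *
      (∏ s, ∏ X ∈ comps (pol R (red c) s), fw 0 c X * ((∏ B ∈ X, E B * T s B) * K s X)) *
      ∏ X ∈ comps (bad R (red c)), (∏ B ∈ X, E B) * N X (sig R (red c) X) := by
    have e1 : ∀ s, ∏ X ∈ comps (pol R (red c) s), fw 0 c X * ((∏ B ∈ X, E B * T s B) * K s X) =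
        (∏ B ∈ pol R (red c) s, E B) * (∏ B ∈ pol R (red c) s, T s B) *
          ∏ X ∈ comps (pol R (red c) s), fw 0 c X * K s X := fun s => by
      rw [← prod_mul_distrib, jl_prod_comps, ← prod_mul_distrib]
      exact prod_congr rfl fun X _ => by ring
    have e2 : ∏ X ∈ comps (bad R (red c)), (∏ B ∈ X, E B) * N X (sig R (red c) X) =
        (∏ B ∈ bad R (red c), E B) * ∏ X ∈ comps (bad R (red c)), N X (sig R (red c) X) := by
      rw [prod_mul_distrib, ← jl_prod_comps]
    rw [lw, hR, jl_under, e2, ← hU, jl_split]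
    simp only [e1, jl_splitT, prod_mul_distrib (s := univ),
      prod_mul_distrib (s := R.filter _)]
    ring
  rw [key]
  split_ifs with hl
  · have b1 : ‖∏ s, ∏ B ∈ R.filter (fun b => c b = some (s, 1)), E B * T s B * M s B‖ ≤
        ∏ s, ∏ B ∈ R.filter (fun b => c b = some (s, 1)), a * Y B :=
      jl_norm_prod _ _ _ fun s _ => jl_norm_prod _ _ _ fun B hB => by
        obtain ⟨h4, h5⟩ := mem_filter.1 hB
        exact h1 s B (hin B h4 fun t => by rw [h5]; simp) (by rw [h5]; rfl)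
    have b2 : ‖∏ s, ∏ X ∈ comps (pol R (red c) s),
        fw 0 c X * ((∏ B ∈ X, E B * T s B) * K s X)‖ ≤
        ∏ s, ∏ X ∈ comps (pol R (red c) s), p * G⁻¹ ^ X.card * ∏ B ∈ X, Y B :=
      jl_norm_prod _ _ _ fun s _ => jl_norm_prod _ _ _ fun X hX => by
        have h6 : ∀ B ∈ X, B ∈ U ∧ lab (c B) = some s := fun B hB => by
          obtain ⟨h4, h5⟩ := mem_filter.1 (one_comps_sub hX hB)
          refine ⟨hin B h4 fun t ht => ?_, ?_⟩
          · simp [red, ht] at h5
          · revert h5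
            simp only [red, lab]
            rcases c B with _ | ⟨t, i⟩ <;> simp +contextual
        rw [norm_mul]
        exact (mul_le_of_le_one_left (norm_nonneg _) (jl_fw c (jl_comps_ne hX))).trans
          (h2 s X (one_comps_conn hX) (fun B hB => (h6 B hB).1) fun B hB => (h6 B hB).2)
    have b3 : ‖∏ X ∈ comps (bad R (red c)), (∏ B ∈ X, E B) * N X (sig R (red c) X)‖ ≤
        ∏ X ∈ comps (bad R (red c)), b * G⁻¹ ^ X.card * ∏ B ∈ X, Y B :=
      jl_norm_prod _ _ _ fun X hX => h3 X _ (one_comps_conn hX) fun B hB => by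
        obtain ⟨h4, h5⟩ := mem_filter.1 (one_comps_sub hX hB)
        exact hin B h4 fun t ht => by simp [red, ht] at h5
    rw [norm_mul, norm_mul]
    refine (mul_le_mul (mul_le_mul b1 b2 (norm_nonneg _) ((norm_nonneg _).trans b1)) b3
      (norm_nonneg _) (mul_nonneg ((norm_nonneg _).trans b1) ((norm_nonneg _).trans b2))).trans
      (le_of_eq ?_)
    have e1 : ∀ s, ∏ X ∈ comps (pol R (red c) s), p * G⁻¹ ^ X.card * ∏ B ∈ X, Y B =
        (∏ X ∈ comps (pol R (red c) s), p * G⁻¹ ^ X.card) * ∏ B ∈ pol R (red c) s, Y B :=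
      fun s => by rw [prod_mul_distrib, ← jl_prod_comps]
    have e2 : ∏ X ∈ comps (bad R (red c)), b * G⁻¹ ^ X.card * ∏ B ∈ X, Y B =
        (∏ X ∈ comps (bad R (red c)), b * G⁻¹ ^ X.card) * ∏ B ∈ bad R (red c), Y B := by
      rw [prod_mul_distrib, ← jl_prod_comps]
    rw [aw, jl_kind, jl_pcs, e2, ← hU, jl_split]
    simp only [e1, prod_mul_distrib (s := univ), prod_mul_distrib (s := R.filter _)]
    ring
  · obtain ⟨X, hX, h0⟩ : ∃ X ∈ pcs R c, fw 0 c X = 0 := by
      by_contra h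
      exact hl fun X hX h0 => h ⟨X, hX, h0⟩
    obtain ⟨s, -, hs⟩ := mem_biUnion.1 hX
    have hz : ∏ s, ∏ X ∈ comps (pol R (red c) s),
        fw 0 c X * ((∏ B ∈ X, E B * T s B) * K s X) = 0 :=
      prod_eq_zero (mem_univ s) (prod_eq_zero hs (by rw [h0, zero_mul]))
    rw [hz]
    simp

end Pool.Agent.Lib.MP_9cc147_pr.Cx
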