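import Pool.Agent.Lib.MP_9cc147_pr.Cx.J.S
import Pool.Agent.Lib.MP_9cc147_pr.Cx.G.S
import Pool.Agent.Lib.MP_9cc147_pr.Cx.J.Tgpre

/-! The integrands of the first step are measurable and local. -/

open scoped Classical Topology ComplexConjugate
open Finset MeasureTheory ProbabilityTheory Filter

noncomputable section
namespace Pool.Agent.Lib.MP_9cc147_pr.Cx

theorem jm_cell (B : P) : cell 1 B = {B} := by
  ext x
  simp only [cell, mem_product, mem_Ico, mem_singleton, Prod.ext_iff, Nat.cast_one, mul_one]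
  omega

theorem jm_under (U : Finset P) : under 1 U = U := by
  ext x
  simp [under, jm_cell]

theorem jm_near (R U : Finset P) : near 0 R U ⊆ U := by
  intro x hx
  obtain ⟨a, ha, h1, h2⟩ := (mem_filter.1 hx).2
  have : a = x := by
    simp only [Nat.cast_zero, abs_nonpos_iff, sub_eq_zero] at h1 h2
    exact Prod.ext h1 h2
  exact this ▸ ha

variable (q : Par)

theorem jm_mono {X U : Finset P} {F : Fld → Om → ℂ} (h : X ⊆ U) (hF : q.Loc0 X F) :
    q.Loc0 U F :=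
  ⟨hF.1, fun Θ Ξ ω ω' e => hF.2 Θ Ξ ω ω' fun p hp =>
    e p (biUnion_subset_biUnion_of_subset_left _ h hp)⟩

theorem jm_const (U : Finset P) (c : ℂ) : q.Loc0 U fun _ _ => c :=
  ⟨measurable_const, fun _ _ _ _ _ => rfl⟩

theorem jm_op {U : Finset P} {F G : Fld → Om → ℂ} (φ : ℂ → ℂ → ℂ)
    (hφ : Measurable fun y : ℂ × ℂ => φ y.1 y.2) (hF : q.Loc0 U F) (hG : q.Loc0 U G) :
    q.Loc0 U fun Θ ω => φ (F Θ ω) (G Θ ω) :=
  ⟨hφ.comp (hF.1.prodMk hG.1), fun Θ Ξ ω ω' e =>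
    congrArg₂ φ (hF.2 Θ Ξ ω ω' e) (hG.2 Θ Ξ ω ω' e)⟩

theorem jm_prod {U : Finset P} (X : Finset P) {F : P → Fld → Om → ℂ}
    (hF : ∀ B ∈ X, q.Loc0 U (F B)) : q.Loc0 U fun Θ ω => ∏ B ∈ X, F B Θ ω :=
  ⟨measurable_prod _ fun B hB => (hF B hB).1, fun Θ Ξ ω ω' e =>
    prod_congr rfl fun B hB => (hF B hB).2 Θ Ξ ω ω' e⟩

theorem jm_clo (U : Finset P) :
    Clo fun (_ : Finset P) (f : Fld × Om → ℂ) => q.Loc0 U fun Θ ω => f (Θ, ω) where
  const c := jm_const q U c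
  mono _ _ _ _ h := h
  add _ _ _ hf hg := jm_op q (· + ·) measurable_add hf hg
  mul _ _ _ _ _ hf hg := jm_op q (· * ·) measurable_mul hf hg

theorem jm_It (μ : Measure Om) (p : Par.Pre) (b : ℕ × ℕ) (z : ℂ) (s : Lab) {U : Finset P} {B : P}
    (hB : B ∈ U) : q.Loc0 U fun Θ _ => q.It0 μ p b z Θ s B :=
  ⟨(gp_Ih_meas q (F := fun y : Fld × Om => y.1)
      (fun x => (measurable_pi_apply x).comp measurable_fst) b 0 z _ B).const_mul _,
    fun Θ Ξ ω ω' e => by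
      simp only [Par.It0]
      rw [gp_Ih_congr q fun x hx => (e x (mem_biUnion.2 ⟨B, hB, hx⟩)).1]⟩

theorem t_j_meas (h : S_g_clo) : S_j_meas := by
  intro q t0 m μ p b z U _ hp hb hU
  have hM : ∀ s, ∀ B ∈ under 1 U, q.Loc0 U fun Θ ω => (q.inp0 μ p b z Θ).M ω s B := by
    intro s B hB
    rw [jm_under] at hB
    exact jm_op q (fun u v => u / v - 1) ((measurable_fst.div measurable_snd).sub_const _)
      (jm_mono q (singleton_subset_iff.2 hB) (hp.locI b z s B hb (hU.1 hB))) (jm_It q μ p b z s hB)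
  have hK : ∀ s X, Conn X → X ⊆ near 0 (reg 1 (box (q.m b 0)) U) (under 1 U) →
      q.Loc0 U fun Θ ω => (q.inp0 μ p b z Θ).K ω s X := by
    intro s X hX hs
    have hXU : X ⊆ U := by simpa only [jm_under] using hs.trans (jm_near _ _)
    exact jm_op q (fun u v => u / v) (measurable_fst.div measurable_snd)
      (jm_mono q hXU (hp.locK b z s X hb ⟨hXU.trans hU.1, hX⟩))
      (jm_prod q X (F := fun B Θ _ => q.It0 μ p b z Θ s B) fun B hB => jm_It q μ p b z s (hXU hB))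
  have hN : ∀ X σ, Conn X → X ⊆ under 1 U →
      q.Loc0 U fun Θ ω => (q.inp0 μ p b z Θ).N ω X σ := by
    intro X σ hX hs
    rw [jm_under] at hs
    exact jm_mono q hs (hp.locN b z X σ hb ⟨hs.trans hU.1, hX⟩)
  have hT : ∀ s, ∀ B ∈ under 1 U, q.Loc0 U fun Θ _ => q.It0 μ p b z Θ s B := fun s B hB =>
    jm_It q μ p b z s (jm_under U ▸ hB)
  refine ⟨fun s => ?_, fun σ => ?_⟩
  · exact (h (Fld × Om) _ 1 0 (box (q.m b 0)) U (fun x => (q.inp0 μ p b z x.1).It)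
      (fun x => (q.inp0 μ p b z x.1).M x.2) (fun x => (q.inp0 μ p b z x.1).K x.2)
      (fun x => (q.inp0 μ p b z x.1).N x.2) (jm_clo q U) le_rfl hU.1 hU.2.1 hT hM hK).1 s
  · exact (h (Fld × Om) _ 1 0 (box (q.m b 0)) U
      (fun x s B => Complex.exp (-(q.inp0 μ p b z x.1).d s B) * (q.inp0 μ p b z x.1).It s B)
      (fun x => (q.inp0 μ p b z x.1).M x.2) (fun x => (q.inp0 μ p b z x.1).K x.2)
      (fun x => (q.inp0 μ p b z x.1).N x.2) (jm_clo q U) le_rfl hU.1 hU.2.1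
      (fun s B hB => jm_op q (· * ·) measurable_mul
        (jm_const q U (Complex.exp (-(q.d0 μ p b s B - q.D0 μ p b s B)))) (hT s B hB))
      hM hK).2 hN σ

end Pool.Agent.Lib.MP_9cc147_pr.Cx
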