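import Pool.Agent.Lib.MP_9cc147_pr.Cx.K0

/-! Statements of the pieces of the first step (integration of the white noise). -/

open scoped Classical Topology ComplexConjugate
open Finset MeasureTheory ProbabilityTheory Filter

noncomputable section
namespace Pool.Agent.Lib.MP_9cc147_pr.Cx

/-- integrand of `rb0` in the first step -/
def Par.F0 (q : Par) (μ : Measure Om) (p : Par.Pre) (b : ℕ × ℕ) (z : ℂ) (U : Finset P) (s : Lab)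
    (Θ : Fld) (ω : Om) : ℂ :=
  L0 1 0 (box (q.m b 0)) U (q.inp0 μ p b z Θ).It ((q.inp0 μ p b z Θ).M ω)
    ((q.inp0 μ p b z Θ).K ω) s
/-- integrand of `rb1` in the first step -/
def Par.F1 (q : Par) (μ : Measure Om) (p : Par.Pre) (b : ℕ × ℕ) (z : ℂ) (U : Finset P)
    (σ : P → Option Lab) (Θ : Fld) (ω : Om) : ℂ :=
  L1 1 0 (box (q.m b 0)) U
    (fun s B => Complex.exp (-(q.inp0 μ p b z Θ).d s B) * (q.inp0 μ p b z Θ).It s B)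
    ((q.inp0 μ p b z Θ).M ω) ((q.inp0 μ p b z Θ).K ω) ((q.inp0 μ p b z Θ).N ω) σ

/-- the integrands are measurable and local -/
def S_j_meas : Prop := ∀ (q : Par) (t0 : ℝ) (m : Measure ℝ) (μ : Measure Om) (p : Par.Pre)
  (b : ℕ × ℕ) (z : ℂ) (U : Finset P), 1 ≤ q.L → q.PreS t0 m p → Par.ok b 0 → Pm (q.m b 0) U →
  (∀ s, q.Loc0 U (q.F0 μ p b z U s)) ∧ ∀ σ, q.Loc0 U (q.F1 μ p b z U σ)

/-- all structural properties of the first state, given holomorphy -/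
def S_j_sym : Prop := ∀ (q : Par) (t0 : ℝ) (m : Measure ℝ) [IsProbabilityMeasure m] (p : Par.Pre),
  100 ≤ q.L → m.map (fun x => -x) = m → q.PreS t0 m p →
  (∀ b s X, Par.ok b 0 → Pm (q.m b 0) X →
    Hol (q.n b) (q.l 0) q.h (q.L * q.h) t0 X fun z => ((q.init (mu0 m) p).a b z).K s X) →
  (∀ b X σ, Par.ok b 0 → Pm (q.m b 0) X →
    Hol (q.n b) (q.l 0) q.h (q.L * q.h) t0 X fun z => ((q.init (mu0 m) p).a b z).N X σ) →
  q.Str t0 0 (q.init (mu0 m) p)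

/-- weight of the field on a tile -/
def Par.gT (q : Par) (θ : P → ℝ) (B : P) : ℝ := Real.exp (q.κ * ∑ x ∈ cell q.L B, n1 (cf θ) x)
def Par.C0 (q : Par) : ℝ := 10 ^ 4 / q.κ ^ 2 * Real.exp (q.L ^ 2 + q.h ^ 2)
/-- the Gaussian part of a marked tile -/
def Par.Gm (q : Par) (μ : Measure Om) (b : ℕ × ℕ) (z : ℂ) (lam : ℝ) (B : P) (Θ : Fld) (ω : Om) : ℂ :=
  Complex.exp ((lam / 2 : ℂ) * E0 q μ b B) * q.Ih b 0 z lam B (Θ + cf (zw (q.n b) ω)) -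
    q.Ih b 0 z lam B Θ

/-- first order pointwise, second order after integration -/
def S_j_gau : Prop := ∀ (q : Par) (m : Measure ℝ) [IsProbabilityMeasure m] (b : ℕ × ℕ) (z : ℂ)
  (θ : P → ℝ) (v : Fld) (B : P) (lam : ℝ) (y : Om → ℝ), 100 ≤ q.L → 0 < q.κ → q.κ ≤ 1 →
  Par.ok b 0 → B ∈ box (q.m b 0) → m.map (fun x => -x) = m → ‖z‖ ≤ 1 →
  Nf q.L v (nb q.L B) ≤ q.h ^ 2 → 0 ≤ lam → lam ≤ q.κ / 100 →
  (∀ ω, Real.exp (q.κ * ∑ x ∈ cell q.L B, n1 (cf (zw (q.n b) ω)) x) ≤ y ω) →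
  Integrable y (mu0 m) → ∫ ω, y ω ∂mu0 m ≤ 2 →
  (∀ ω, ‖q.Gm (mu0 m) b z lam B (bg (q.n b) z + cf θ + v) ω‖ ≤ lam * q.C0 * y ω * q.gT θ B) ∧
  Integrable (q.Gm (mu0 m) b z lam B (bg (q.n b) z + cf θ + v)) (mu0 m) ∧
  ‖∫ ω, q.Gm (mu0 m) b z lam B (bg (q.n b) z + cf θ + v) ω ∂mu0 m‖ ≤ lam ^ 2 * q.C0 * q.gT θ B

/-- the weight of one local configuration is the product of its atoms -/
def S_j_lw : Prop := ∀ (D U : Finset P) (T M : Lab → P → ℂ) (K : Lab → Finset P → ℂ)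
  (N : Finset P → (P → Option Lab) → ℂ) (c : P → Sf) (E : P → ℂ) (Y : P → ℝ) (a p b G : ℝ),
  c ∈ loc 1 0 D U → U ⊆ D → 0 ≤ a → 0 ≤ p → 0 ≤ b → 0 ≤ G → (∀ B, 0 ≤ Y B) →
  (∀ s, ∀ B ∈ U, lab (c B) = some s → ‖E B * T s B * M s B‖ ≤ a * Y B) →
  (∀ s X, Conn X → X ⊆ U → (∀ B ∈ X, lab (c B) = some s) →
    ‖(∏ B ∈ X, E B * T s B) * K s X‖ ≤ p * G⁻¹ ^ X.card * ∏ B ∈ X, Y B) →
  (∀ X σ, Conn X → X ⊆ U → ‖(∏ B ∈ X, E B) * N X σ‖ ≤ b * G⁻¹ ^ X.card * ∏ B ∈ X, Y B) →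
  ‖(∏ B ∈ U, E B) * lw 1 0 D U T M K N c‖ ≤
    (if live 0 (reg 1 D U) c then aw (reg 1 D U) a p b G c else 0) * ∏ B ∈ U, Y B

/-- the partition function identity, given integrability -/
def S_j_id : Prop := ∀ (q : Par) (t0 : ℝ) (m : Measure ℝ) [IsProbabilityMeasure m] (p : Par.Pre)
  (b : ℕ × ℕ) (z : ℂ) (Θ : Fld), 100 ≤ q.L → q.PreS t0 m p → Par.ok b 0 →
  (∀ U, Pm (q.m b 0) U → (∀ s, Integrable (q.F0 (mu0 m) p b z U s Θ) (mu0 m)) ∧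
    ∀ σ, Integrable (q.F1 (mu0 m) p b z U σ Θ) (mu0 m)) →
  (∀ s, ∀ B ∈ box (q.m b 0), q.d0 (mu0 m) p b s B = q.D0 (mu0 m) p b s B) →
  q.Wpre (mu0 m) p b z Θ = Complex.exp (-∑ B ∈ box (q.m b 0), q.e0 (mu0 m) p b 0 B) *
    q.WW 0 (q.init (mu0 m) p) b z Θ

end Pool.Agent.Lib.MP_9cc147_pr.Cx
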