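import Pool.Agent.Lib.MP_9cc147_pr.Cx.J.Atom

/-! Pointwise bounds on the local sums of the first step. -/

open scoped Classical Topology ComplexConjugate
open Finset MeasureTheory ProbabilityTheory Filter

noncomputable section
namespace Pool.Agent.Lib.MP_9cc147_pr.Cx

theorem ju_aw {R : Finset P} {a p b G : ℝ} (ha : 0 ≤ a) (hp : 0 ≤ p) (hb : 0 ≤ b) (hG : 0 ≤ G)
    (c : P → Sf) : 0 ≤ aw R a p b G c :=
  mul_nonneg (mul_nonneg (pow_nonneg ha _) (prod_nonneg fun _ _ => by positivity))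
    (prod_nonneg fun _ _ => by positivity)

theorem ju_L0 (h_one : S_one) (hlw : S_j_lw) {D U : Finset P} (hU : U ⊆ D) (hne : U.Nonempty)
    (T M : Lab → P → ℂ) (K : Lab → Finset P → ℂ) (E : P → ℂ) (Y : P → ℝ) (s : Lab)
    {a p G k1 k2 : ℝ} (ha : 0 ≤ a) (hp : 0 ≤ p) (hG : 0 ≤ G) (hY : ∀ B, 0 ≤ Y B)
    (hM : ∀ B ∈ U, ‖E B * T s B * M s B‖ ≤ a * Y B)
    (hK : ∀ X, Conn X → X ⊆ U →
      ‖(∏ B ∈ X, E B * T s B) * K s X‖ ≤ p * G⁻¹ ^ X.card * ∏ B ∈ X, Y B)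
    (h1 : ∑ c ∈ (loc0 1 0 D U s).filter (fun c => live 0 (reg 1 D U) c ∧ big 0 (reg 1 D U) c),
      aw (reg 1 D U) a p 0 G c ≤ k1)
    (h2 : ∑ c ∈ (loc0 1 0 D U s).filter (fun c => live 0 (reg 1 D U) c ∧ 2 ≤ nat (reg 1 D U) c),
      aw (reg 1 D U) a p 0 G c ≤ k2) :
    ‖(∏ B ∈ U, E B) * L0 1 0 D U T M K s -
      (if U.card = 1 then ∑ B ∈ U, E B * T s B * M s B else 0)‖ ≤ (k1 + k2) * ∏ B ∈ U, Y B := by
  obtain ⟨hs, ho⟩ := h_one 1 0 D U le_rfl hU hne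
  have hUR : U ⊆ reg 1 D U := by
    have := one_under_reg (L := 1) le_rfl hU
    rwa [ja_under1] at this
  have e1 : (∏ B ∈ U, E B) * ∑ c ∈ (loc0 1 0 D U s).filter
      (fun c => nat (reg 1 D U) c = 1 ∧ ¬ big 0 (reg 1 D U) c), lw 1 0 D U T M K (fun _ _ => 0) c =
      if U.card = 1 then ∑ B ∈ U, E B * T s B * M s B else 0 := by
    rw [ho T M K s, ja_under1]
    split_ifs with h
    · obtain ⟨B, rfl⟩ := card_eq_one.1 h
      have : (under 1 D).powerset.filter (fun X => Conn X ∧ B ∈ X ∧ X.card ≤ 0) = ∅ :=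
        filter_eq_empty_iff.2 fun X _ hX => by
          have := card_pos.2 hX.1.1
          omega
      simp only [prod_singleton, sum_singleton, this, sum_empty, add_zero, mul_assoc]
    · exact mul_zero _
  unfold L0
  rw [← sum_filter_add_sum_filter_not _
    (fun c => nat (reg 1 D U) c = 1 ∧ ¬ big 0 (reg 1 D U) c), mul_add, e1, add_sub_cancel_left,
    mul_sum]
  refine (norm_sum_le _ _).trans ?_
  have hb : ∀ c ∈ (loc0 1 0 D U s).filter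
      (fun c => ¬ (nat (reg 1 D U) c = 1 ∧ ¬ big 0 (reg 1 D U) c)),
      ‖(∏ B ∈ U, E B) * lw 1 0 D U T M K (fun _ _ => 0) c‖ ≤
      ((if live 0 (reg 1 D U) c ∧ big 0 (reg 1 D U) c then aw (reg 1 D U) a p 0 G c else 0) +
      (if live 0 (reg 1 D U) c ∧ 2 ≤ nat (reg 1 D U) c then aw (reg 1 D U) a p 0 G c else 0)) *
        ∏ B ∈ U, Y B := by
    intro c hc
    obtain ⟨hc, hn⟩ := mem_filter.1 hc
    obtain ⟨hc, hl⟩ := mem_filter.1 hc
    refine (hlw D U T M K _ c E Y a p 0 G hc hU ha hp le_rfl hG hY ?_ ?_ ?_).trans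
      (mul_le_mul_of_nonneg_right ?_ (prod_nonneg fun B _ => hY B))
    · intro t B hB ht
      obtain rfl : t = s := Option.some.inj (ht.symm.trans (hl B (hUR hB)))
      exact hM B hB
    · intro t X hX hXU ht
      obtain ⟨B, hB⟩ := hX.1
      obtain rfl : t = s := Option.some.inj ((ht B hB).symm.trans (hl B (hUR (hXU hB))))
      exact hK X hX hXU
    · intro X σ _ _
      simp
    · have h0 := ju_aw (R := reg 1 D U) ha hp le_rfl hG c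
      by_cases hv : live 0 (reg 1 D U) c
      · have h3 := (hs c hc hv).1
        simp only [hv, true_and, if_true]
        by_cases hg : big 0 (reg 1 D U) c
        · rw [if_pos hg]; split_ifs <;> linarith
        · rw [if_neg hg, if_pos (by by_contra h; exact hn ⟨by omega, hg⟩), zero_add]
      · simp [hv]
  refine (sum_le_sum hb).trans ?_
  rw [← sum_mul]
  refine mul_le_mul_of_nonneg_right ?_ (prod_nonneg fun B _ => hY B)
  refine (sum_le_sum_of_subset_of_nonneg (filter_subset _ _) fun c _ _ => ?_).trans ?_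
  · have h0 := ju_aw (R := reg 1 D U) ha hp le_rfl hG c
    refine add_nonneg ?_ ?_ <;> split_ifs <;> first | exact h0 | exact le_rfl
  · rw [sum_add_distrib, ← sum_filter, ← sum_filter]
    exact add_le_add h1 h2

theorem ju_L1 (hlw : S_j_lw) {D U : Finset P} (hU : U ⊆ D) (T M : Lab → P → ℂ)
    (K : Lab → Finset P → ℂ) (N : Finset P → (P → Option Lab) → ℂ) (E : P → ℂ) (Y : P → ℝ)
    (σ : P → Option Lab) {a p b G k : ℝ} (ha : 0 ≤ a) (hp : 0 ≤ p) (hb : 0 ≤ b) (hG : 0 ≤ G)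
    (hY : ∀ B, 0 ≤ Y B) (hM : ∀ s, ∀ B ∈ U, ‖E B * T s B * M s B‖ ≤ a * Y B)
    (hK : ∀ s X, Conn X → X ⊆ U →
      ‖(∏ B ∈ X, E B * T s B) * K s X‖ ≤ p * G⁻¹ ^ X.card * ∏ B ∈ X, Y B)
    (hN : ∀ X σ, Conn X → X ⊆ U → ‖(∏ B ∈ X, E B) * N X σ‖ ≤ b * G⁻¹ ^ X.card * ∏ B ∈ X, Y B)
    (h1 : ∑ c ∈ (loc1 1 0 D U σ).filter (live 0 (reg 1 D U)), aw (reg 1 D U) a p b G c ≤ k) :
    ‖(∏ B ∈ U, E B) * L1 1 0 D U T M K N σ‖ ≤ k * ∏ B ∈ U, Y B := by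
  unfold L1
  rw [mul_sum]
  refine (norm_sum_le _ _).trans ((sum_le_sum fun c hc => hlw D U T M K N c E Y a p b G
    (mem_filter.1 hc).1 hU ha hp hb hG hY (fun s B hB _ => hM s B hB)
    (fun s X hX hXU _ => hK s X hX hXU) hN).trans ?_)
  rw [← sum_mul, ← sum_filter]
  exact mul_le_mul_of_nonneg_right h1 (prod_nonneg fun B _ => hY B)

/-- the counting bounds at the first step -/
def JN (q : Par) : Prop := ∀ (m : ℕ) (U : Finset P) (a p b : ℝ), q.L ≤ m → Pm m U → 0 ≤ a →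
  0 ≤ p → 0 ≤ b → a ≤ q.C * q.ε → p ≤ q.C * q.ε → b ≤ q.C * q.ε →
  (∀ s, ∑ c ∈ (loc0 1 0 (box m) U s).filter
    (fun c => live 0 (reg 1 (box m) U) c ∧ big 0 (reg 1 (box m) U) c),
      aw (reg 1 (box m) U) a p b (q.A ^ 2 / 16) c ≤ p / 1000 * (16 * q.A)⁻¹ ^ U.card) ∧
  (∀ s, ∑ c ∈ (loc0 1 0 (box m) U s).filter
    (fun c => live 0 (reg 1 (box m) U) c ∧ 2 ≤ nat (reg 1 (box m) U) c),
      aw (reg 1 (box m) U) a p b (q.A ^ 2 / 16) c ≤
        Real.sqrt q.C * (a + p) ^ 2 * (16 * q.A)⁻¹ ^ U.card) ∧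
  ∀ σ, ∑ c ∈ (loc1 1 0 (box m) U σ).filter (live 0 (reg 1 (box m) U)),
    aw (reg 1 (box m) U) a p b (q.A ^ 2 / 16) c ≤
      (if Nn (box m) U σ then b / 1000 else Real.sqrt q.C * b) * (16 * q.A)⁻¹ ^ U.card

theorem ju_JN (h_cnt : S_cnt) : ∀ᶠ q in FP, JN q :=
  Eventually.mono h_cnt fun q h m U a p b => h 1 0 (q.A ^ 2 / 16) (Or.inr ⟨rfl, rfl, rfl⟩) m U a p b

theorem ju_m {q : Par} (hL : 1 ≤ q.L) {b : ℕ × ℕ} (hb : Par.ok b 0) : q.L ≤ q.m b 0 := by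
  unfold Par.m
  have h1 : 1 ≤ b.1 := by rcases hb.1 with h | h <;> omega
  calc q.L = 1 * q.L ^ 1 := by simp
    _ ≤ _ := Nat.mul_le_mul h1 (Nat.pow_le_pow_right hL (by omega))

/-- normalised integrands -/
def Par.G0 (q : Par) (μ : Measure Om) (p : Par.Pre) (b : ℕ × ℕ) (z : ℂ) (U : Finset P) (s : Lab)
    (Θ : Fld) (ω : Om) : ℂ := (∏ B ∈ U, Complex.exp (q.e0 μ p b s B)) * q.F0 μ p b z U s Θ ω
def Par.G1 (q : Par) (μ : Measure Om) (p : Par.Pre) (b : ℕ × ℕ) (z : ℂ) (U : Finset P)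
    (σ : P → Option Lab) (Θ : Fld) (ω : Om) : ℂ :=
  (∏ B ∈ U, Complex.exp (q.e0 μ p b 0 B)) * q.F1 μ p b z U σ Θ ω

theorem ju_rb0 (q : Par) (μ : Measure Om) (p : Par.Pre) (b : ℕ × ℕ) (z : ℂ) (U : Finset P)
    (s : Lab) (Θ : Fld) : rb0 μ 1 0 (box (q.m b 0)) (q.inp0 μ p b z Θ) s U =
      ∫ ω, q.G0 μ p b z U s Θ ω ∂μ := by
  unfold rb0 Par.G0
  rw [integral_const_mul, ja_under1, Complex.exp_sum]; rfl

theorem ju_rb1 (q : Par) (μ : Measure Om) (p : Par.Pre) (b : ℕ × ℕ) (z : ℂ) (U : Finset P)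
    (σ : P → Option Lab) (Θ : Fld) : rb1 μ 1 0 (box (q.m b 0)) (q.inp0 μ p b z Θ) U σ =
      ∫ ω, q.G1 μ p b z U σ Θ ω ∂μ := by
  unfold rb1 Par.G1
  rw [integral_const_mul, ja_under1, Complex.exp_sum]; rfl

variable {q : Par} {t0 : ℝ} {m : Measure ℝ} [IsProbabilityMeasure m] {p : Par.Pre}
  {β1 β2 ν ρ : ℝ} {y : ℕ × ℕ → P → Om → ℝ}

/-- an admissible argument of the activities -/
structure JA (q : Par) (t0 : ℝ) (b : ℕ × ℕ) (z : ℂ) (θ : P → ℝ) (U : Finset P) (v : Fld) :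
    Prop where
  ok : Par.ok b 0
  z : ‖z‖ ≤ t0
  dir : Dir (q.n b) θ
  pm : Pm (q.m b 0) U
  st : Strip (q.n b) q.L q.h (q.L * q.h) U v

namespace JC
variable {b : ℕ × ℕ} {z : ℂ} {θ : P → ℝ} {U : Finset P} {v : Fld}

theorem C1 (J : JC q t0 m p β1 β2 ν ρ y) : 4 + q.C0 ≤ q.C := by
  have := J.C0; have := J.A; have := J.CA; nlinarith

theorem Y0 (J : JC q t0 m p β1 β2 ν ρ y) (θ : P → ℝ) (ω : Om) (B : P) :
    0 ≤ y b B ω * q.gT θ B := mul_nonneg (zero_le_one.trans (J.y1 b B ω)) (Real.exp_pos _).le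

theorem gau (J : JC q t0 m p β1 β2 ν ρ y) (hg : S_j_gau) (a : JA q t0 b z θ U v) (s : Lab)
    {B : P} (hB : B ∈ U) :
    (∀ ω, ‖q.Gm (mu0 m) b z (p.lam s) B (bg (q.n b) z + cf θ + v) ω‖ ≤
      p.lam s * q.C0 * y b B ω * q.gT θ B) ∧
    Integrable (q.Gm (mu0 m) b z (p.lam s) B (bg (q.n b) z + cf θ + v)) (mu0 m) ∧
    ‖∫ ω, q.Gm (mu0 m) b z (p.lam s) B (bg (q.n b) z + cf θ + v) ω ∂mu0 m‖ ≤
      p.lam s ^ 2 * q.C0 * q.gT θ B := by
  have hy := J.B.yint b {B} a.ok (singleton_subset_iff.2 (a.pm.1 hB))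
  simp only [prod_singleton, card_singleton, pow_one] at hy
  exact hg q m b z θ v B (p.lam s) (y b B) J.L J.k0 J.k1 a.ok (a.pm.1 hB) J.neg (a.z.trans J.t)
    (a.st.1 B hB) (J.B.lam s).1 ((J.B.lam s).2.1.trans (J.b1.trans J.ek)) (J.B.ylow b B) hy.1 hy.2

theorem er (J : JC q t0 m p β1 β2 ν ρ y) (a : JA q t0 b z θ U v) (s : Lab) {B : P} (hB : B ∈ U)
    (ω : Om) : ‖q.Er p b z (bg (q.n b) z + cf θ + v) s B ω‖ ≤
      (if deep 1 (q.m b 0) B then β2 else β1) * (y b B ω * q.gT θ B) := by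
  refine ((J.B.bd b z θ U v ω a.ok a.z a.dir a.pm a.st).1 s B hB).trans ?_
  rw [← mul_assoc]
  refine mul_le_mul_of_nonneg_left (ja_q4 J.k0.le θ _)
    (mul_nonneg ?_ (zero_le_one.trans (J.y1 b B ω)))
  split_ifs
  · exact J.b2
  · exact J.b2.trans J.b21

theorem er1 (J : JC q t0 m p β1 β2 ν ρ y) (a : JA q t0 b z θ U v) (s : Lab) {B : P} (hB : B ∈ U)
    (ω : Om) : ‖q.Er p b z (bg (q.n b) z + cf θ + v) s B ω‖ ≤ β1 * (y b B ω * q.gT θ B) := by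
  refine (J.er a s hB ω).trans (mul_le_mul_of_nonneg_right ?_ (J.Y0 θ ω B))
  split_ifs
  · exact J.b21
  · exact le_rfl

theorem mk1 (J : JC q t0 m p β1 β2 ν ρ y) (h_e0 : S_e0) (hg : S_j_gau) (a : JA q t0 b z θ U v)
    (s : Lab) {B : P} (hB : B ∈ U) (ω : Om) {β : ℝ}
    (he : ‖q.Er p b z (bg (q.n b) z + cf θ + v) s B ω‖ ≤ β * (y b B ω * q.gT θ B)) :
    ‖Complex.exp (q.e0 (mu0 m) p b s B) * q.It0 (mu0 m) p b z (bg (q.n b) z + cf θ + v) s B *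
      (q.inp0 (mu0 m) p b z (bg (q.n b) z + cf θ + v)).M ω s B‖ ≤
      (2 * β + p.lam s * q.C0) * (y b B ω * q.gT θ B) := by
  rw [J.mark a.ok (a.pm.1 hB)]
  refine (norm_add_le _ _).trans ?_
  rw [norm_mul]
  have h1 := mul_le_mul (J.expE h_e0 a.ok (a.pm.1 hB) s) he (norm_nonneg _) zero_le_two
  have h2 := (J.gau hg a s hB).1 ω
  linarith

/-- the one phase integrand up to its Gaussian single tile part -/
theorem G0 (J : JC q t0 m p β1 β2 ν ρ y) (N : JN q) (h_one : S_one) (h_e0 : S_e0) (hlw : S_j_lw)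
    (hg : S_j_gau) (a : JA q t0 b z θ U v) (s : Lab) (ω : Om) {β : ℝ} (h0 : 0 ≤ β) (h1 : β ≤ β1)
    (he : ∀ B ∈ U, ‖q.Er p b z (bg (q.n b) z + cf θ + v) s B ω‖ ≤ β * (y b B ω * q.gT θ B)) :
    ‖q.G0 (mu0 m) p b z U s (bg (q.n b) z + cf θ + v) ω - (if U.card = 1 then
      ∑ B ∈ U, q.Gm (mu0 m) b z (p.lam s) B (bg (q.n b) z + cf θ + v) ω else 0)‖ ≤
    ((if U.card = 1 then 2 * β else 0) + (β2 / 1000 + Real.sqrt q.C *
      (2 * β + p.lam s * q.C0 + β2) ^ 2) * (16 * q.A)⁻¹ ^ U.card) *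
      ∏ B ∈ U, y b B ω * q.gT θ B := by
  have hl := J.B.lam s
  have hC0 := J.C0
  have hC1 := J.C1
  have he0 : 0 ≤ q.ε := J.b2.trans (J.b21.trans J.b1)
  have ha : 0 ≤ 2 * β + p.lam s * q.C0 := by have := hl.1; positivity
  have hb1 := J.b1
  obtain ⟨n1, n2, -⟩ := N (q.m b 0) U (2 * β + p.lam s * q.C0) β2 0 (ju_m J.L1 a.ok) a.pm ha J.b2
    le_rfl (by nlinarith [hl.2.1]) (by nlinarith [J.b21]) (by nlinarith)
  have h := ju_L0 h_one hlw a.pm.1 a.pm.2.1 (q.inp0 (mu0 m) p b z (bg (q.n b) z + cf θ + v)).It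
    ((q.inp0 (mu0 m) p b z (bg (q.n b) z + cf θ + v)).M ω)
    ((q.inp0 (mu0 m) p b z (bg (q.n b) z + cf θ + v)).K ω)
    (fun B => Complex.exp (q.e0 (mu0 m) p b s B)) (fun B => y b B ω * q.gT θ B) s ha J.b2
    (by positivity) (J.Y0 θ ω) (fun B hB => J.mk1 h_e0 hg a s hB ω (he B hB))
    (fun X hX hXU => by
      have := J.poly h_e0 a.ok (hXU.trans a.pm.1) s θ ω J.b2
        ((J.B.bd b z θ U v ω a.ok a.z a.dir a.pm a.st).2.1 s X hXU hX)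
      rwa [← ja_pol] at this) (n1 s) (n2 s)
  rw [← add_mul] at h
  split_ifs at h ⊢ with hc
  · obtain ⟨B, rfl⟩ := card_eq_one.1 hc
    simp only [sum_singleton, prod_singleton] at h ⊢
    have h2 := mul_le_mul (J.expE h_e0 a.ok (a.pm.1 (mem_singleton_self B)) s)
      (he B (mem_singleton_self B)) (norm_nonneg _) zero_le_two
    rw [← norm_mul] at h2
    have h3 : _ * (q.inp0 (mu0 m) p b z (bg (q.n b) z + cf θ + v)).It s B * _ = _ :=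
      J.mark a.ok (a.pm.1 (mem_singleton_self B)) z (bg (q.n b) z + cf θ + v) s ω
    have h4 := norm_add_le_of_le h h2
    refine le_trans (le_of_eq ?_) (h4.trans (le_of_eq (by ring)))
    congr 1
    unfold Par.G0 Par.F0
    rw [prod_singleton]
    linear_combination h3
  · rw [zero_add]; exact h

theorem G1 (J : JC q t0 m p β1 β2 ν ρ y) (N : JN q) (h_e0 : S_e0) (hlw : S_j_lw)
    (hg : S_j_gau) (a : JA q t0 b z θ U v) (σ : P → Option Lab) (ω : Om) :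
    ‖q.G1 (mu0 m) p b z U σ (bg (q.n b) z + cf θ + v) ω‖ ≤
    (if Nn (box (q.m b 0)) U σ then ν / 1000 else Real.sqrt q.C * ν) * (16 * q.A)⁻¹ ^ U.card *
      ∏ B ∈ U, jw (q.m b 0) ρ B * (y b B ω * q.gT θ B) := by
  have hC0 := J.C0
  have hC1 := J.C1
  have hb0 : 0 ≤ β1 := J.b2.trans J.b21
  have hb1 := J.b1
  have ha : 0 ≤ 2 * β1 + β1 * q.C0 := by positivity
  have hν : ν ≤ β2 := le_trans (le_mul_of_one_le_right J.n0 (one_le_pow₀ J.r1)) J.nr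
  obtain ⟨-, -, n3⟩ := N (q.m b 0) U (2 * β1 + β1 * q.C0) β2 ν (ju_m J.L1 a.ok) a.pm ha J.b2
    J.n0 (by nlinarith) (by nlinarith [J.b21]) (by nlinarith [J.b21])
  have hd : ∀ s, ∀ B ∈ U, ‖Complex.exp (-q.d0 (mu0 m) p b s B)‖ ≤ jw (q.m b 0) ρ B := by
    intro s B hB
    rw [Complex.norm_exp, Complex.neg_re]
    exact (Real.exp_le_exp.2 (neg_le_abs _)).trans (J.dw h_e0 a.ok (a.pm.1 hB) s)
  have hw : ∀ B, 0 ≤ jw (q.m b 0) ρ B := fun B => zero_le_one.trans (J.jw1 _ B)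
  have hG : 0 ≤ (q.A ^ 2 / 16)⁻¹ := by positivity
  refine ju_L1 hlw a.pm.1 _ _ _ _ (fun B => Complex.exp (q.e0 (mu0 m) p b 0 B))
    (fun B => jw (q.m b 0) ρ B * (y b B ω * q.gT θ B)) σ ha J.b2 J.n0 (by positivity)
    (fun B => mul_nonneg (hw B) (J.Y0 θ ω B)) (fun s B hB => ?_) (fun s X hX hXU => ?_)
    (fun X σ hX hXU => ?_) (n3 σ)
  · rw [ja_T1, mul_assoc, norm_mul, mul_left_comm]
    refine mul_le_mul (hd s B hB) ((J.mk1 h_e0 hg a s hB ω (J.er1 a s hB ω)).trans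
      (mul_le_mul_of_nonneg_right ?_ (J.Y0 θ ω B))) (norm_nonneg _) (hw B)
    nlinarith [(J.B.lam s).2.1]
  · simp only [ja_T1]
    rw [prod_mul_distrib, mul_assoc, ja_pol, norm_mul, norm_prod, prod_mul_distrib (f := jw _ ρ),
      mul_left_comm]
    exact mul_le_mul (prod_le_prod (fun _ _ => norm_nonneg _) fun B hB => hd s B (hXU hB))
      (J.poly h_e0 a.ok (hXU.trans a.pm.1) s θ ω J.b2
        ((J.B.bd b z θ U v ω a.ok a.z a.dir a.pm a.st).2.1 s X hXU hX)) (norm_nonneg _)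
      (prod_nonneg fun B _ => hw B)
  · refine (J.poly h_e0 a.ok (hXU.trans a.pm.1) 0 θ ω J.n0
      ((J.B.bd b z θ U v ω a.ok a.z a.dir a.pm a.st).2.2 X σ hXU hX)).trans
      (mul_le_mul_of_nonneg_left (prod_le_prod (fun B _ => J.Y0 θ ω B) fun B _ =>
        le_mul_of_one_le_left (J.Y0 θ ω B) (J.jw1 _ B)) (mul_nonneg J.n0 (pow_nonneg hG _)))

end JC

end Pool.Agent.Lib.MP_9cc147_pr.Cx
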