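import Pool.Agent.Lib.MP_9cc147_pr.Cx.J.S
import Pool.Agent.Lib.MP_9cc147_pr.Cx.J.Tgpre
import Pool.Agent.Lib.MP_9cc147_pr.Cx.T.Geo

/-! The symmetries of the first state. -/

open scoped Classical Topology ComplexConjugate
open Finset MeasureTheory ProbabilityTheory Filter

noncomputable section
namespace Pool.Agent.Lib.MP_9cc147_pr.Cx

theorem js_par (a : P) : par 1 a = a := by simp [par]

theorem js_under (U : Finset P) : under 1 U = U := by
  ext a
  rw [T.mem_under one_pos, js_par]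

theorem js_near (R U : Finset P) : near 0 R U ⊆ U := fun b h => by
  obtain ⟨-, a, ha, e⟩ := T.mem_near.1 h
  rw [T.nr_iff] at e
  rwa [show b = a from Prod.ext (by omega) (by omega)]

theorem js_prob (m : Measure ℝ) [IsProbabilityMeasure m] : IsProbabilityMeasure (mu0 m) := by
  have : ∀ i : ℕ × P, IsProbabilityMeasure (if i.1 < 4 then m else gaussianReal 0 1) :=
    fun i => by split_ifs <;> infer_instance
  unfold mu0
  infer_instance

section
variable {D D' U : Finset P} {β : P ≃ P} {π : Lab ≃ Lab}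
  (hD : near 1 D' (U.image β) = (near 1 D U).image β)
include hD

theorem js_bdry (B : P) : β B ∈ bdry D' (U.image β) ↔ B ∈ bdry D U := by
  rw [bdry, bdry, Finset.mem_sdiff, Finset.mem_sdiff, hD, β.injective.mem_finset_image,
    β.injective.mem_finset_image]

theorem js_ne : (bdry D' (U.image β)).Nonempty ↔ (bdry D U).Nonempty := by
  rw [Finset.Nonempty, β.surjective.exists]
  exact exists_congr (js_bdry hD)

theorem js_cst (s : Lab) (B : P) :
    cst D' (U.image β) (π s) (β B) = (cst D U s B).map π := by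
  simp only [cst, js_bdry hD]
  split_ifs <;> rfl

theorem js_nn {σ σ' : P → Option Lab} (h : ∀ B, σ' (β B) = (σ B).map π) :
    Nn D' (U.image β) σ' ↔ Nn D U σ := by
  rw [Nn, Nn, Neu, Neu, js_ne hD, π.surjective.exists, β.surjective.forall]
  refine and_congr (not_congr (and_congr_right fun _ => exists_congr fun s => ?_))
    (forall_congr' fun B => by rw [js_bdry hD, h, Option.map_eq_none_iff])
  rw [funext_iff, funext_iff, β.surjective.forall]
  exact forall_congr' fun B => by rw [h, js_cst hD, (Option.map_injective π.injective).eq_iff]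

end

/-- the identity or the conjugation -/
structure JsHom (φ : ℂ →+* ℂ) : Prop where
  exp : ∀ z, φ (Complex.exp z) = Complex.exp (φ z)
  int : ∀ (μ : Measure Om) (f : Om → ℂ), ∫ ω, φ (f ω) ∂μ = φ (∫ ω, f ω ∂μ)

theorem js_id : JsHom (RingHom.id ℂ) := ⟨fun _ => rfl, fun _ _ => rfl⟩
theorem js_conj : JsHom (starRingEnd ℂ) :=
  ⟨fun z => (Complex.exp_conj z).symm, fun _ _ => integral_conj⟩

theorem js_pre (h_tra : S_tra) (hm : S_j_meas) {q : Par} {t0 : ℝ} {m : Measure ℝ} {μ : Measure Om}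
    {p : Par.Pre} (hL : 1 ≤ q.L) (hp : q.PreS t0 m p) {b b' : ℕ × ℕ} (hb : Par.ok b 0)
    {U : Finset P} (hU : Pm (q.m b 0) U) (β : P ≃ P) (π : Lab ≃ Lab) {φ : ℂ →+* ℂ} (hφ : JsHom φ)
    {Ψ : Om → Om} (hΨ : MeasurePreserving Ψ μ μ) (hβ : ∀ a b, nr 1 (β a) (β b) ↔ nr 1 a b)
    (hD : near 1 (box (q.m b' 0)) (U.image β) = (near 1 (box (q.m b 0)) U).image β) (π0 : π 0 = 0)
    {z z' : ℂ} {Θ Θ' : Fld} (hR : ∀ ω, Par.Rel p φ b b' z z' Θ Θ' (Ψ ω) ω β π U)
    (he : ∀ s, ∀ B ∈ U, q.e0 μ p b' (π s) (β B) = φ (q.e0 μ p b s B))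
    (hd : ∀ s, ∀ B ∈ U, q.d0 μ p b' (π s) (β B) = φ (q.d0 μ p b s B))
    (hI : ∀ s, ∀ B ∈ U, q.Ih b' 0 z' (p.lam (π s)) (β B) Θ' = φ (q.Ih b 0 z (p.lam s) B Θ)) :
    (∀ s, ((q.init μ p).a b' z').K (π s) (U.image β) Θ' = φ (((q.init μ p).a b z).K s U Θ)) ∧
    ∀ σ σ', (∀ B, σ' (β B) = (σ B).map π) →
      ((q.init μ p).a b' z').N (U.image β) σ' Θ' = φ (((q.init μ p).a b z).N U σ Θ) := by
  have hT : ∀ s, ∀ B ∈ U, q.It0 μ p b' z' Θ' (π s) (β B) = φ (q.It0 μ p b z Θ s B) :=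
    fun s B h => by rw [Par.It0, Par.It0, map_mul, hφ.exp, map_neg, he s B h, hI s B h]
  have hM : ∀ ω s, ∀ B ∈ U, (q.inp0 μ p b' z' Θ').M ω (π s) (β B) =
      φ ((q.inp0 μ p b z Θ).M (Ψ ω) s B) := fun ω s B h => by
    simp only [Par.inp0, map_sub, map_div₀, map_one, hT s B h, (hR ω).1 s B h]
  have hK : ∀ ω s X, Conn X → X ⊆ near 0 (reg 1 (box (q.m b 0)) U) (under 1 U) →
      (q.inp0 μ p b' z' Θ').K ω (π s) (X.image β) = φ ((q.inp0 μ p b z Θ).K (Ψ ω) s X) :=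
    fun ω s X c h => by
      have h' := h.trans (js_near _ _)
      rw [js_under] at h'
      simp only [Par.inp0, map_div₀, map_prod, (hR ω).2.1 s X h' c]
      rw [prod_image β.injective.injOn, prod_congr rfl fun B k => hT s B (h' k)]
  have t := fun ω T T' h => h_tra 1 0 (box (q.m b 0)) (box (q.m b' 0)) U β β π φ T
    ((q.inp0 μ p b z Θ).M (Ψ ω)) T' ((q.inp0 μ p b' z' Θ').M ω) _ _ _ ((q.inp0 μ p b' z' Θ').N ω)
    le_rfl hU.1 hβ hβ (fun a => by rw [js_par, js_par]) hD h (hK ω)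
    fun X σ σ' c h k => (hR ω).2.2 X σ σ' (js_under U ▸ h) c k
  have i : ∀ {F : Fld → Om → ℂ} {F' : Om → ℂ}, q.Loc0 U F → (∀ ω, F' ω = φ (F Θ (Ψ ω))) →
      ∫ ω, F' ω ∂μ = φ (∫ ω, F Θ ω ∂μ) := fun {F F'} l h => by
    have : Measurable (F Θ) := l.1.comp measurable_prodMk_left
    rw [integral_congr_ae (.of_forall h), hφ.int]
    congr 1
    conv_rhs => rw [← hΨ.map_eq, integral_map hΨ.measurable.aemeasurable this.aestronglyMeasurable]
  have sm : ∀ {f f' : P → ℂ}, (∀ B ∈ U, f' (β B) = φ (f B)) →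
      Complex.exp (∑ B ∈ U.image β, f' B) = φ (Complex.exp (∑ B ∈ U, f B)) := fun h => by
    rw [hφ.exp, map_sum, sum_image β.injective.injOn, sum_congr rfl h]
  obtain ⟨m0, m1⟩ := hm q t0 m μ p b z U hL hp hb hU
  have e0 := he 0
  rw [π0] at e0
  have r1 : ∀ σ σ', (∀ B, σ' (β B) = (σ B).map π) →
      rb1 μ 1 0 (box (q.m b' 0)) (q.inp0 μ p b' z' Θ') (U.image β) σ' =
        φ (rb1 μ 1 0 (box (q.m b 0)) (q.inp0 μ p b z Θ) U σ) := fun σ σ' h => by
    rw [rb1, rb1, map_mul, js_under, js_under]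
    refine congrArg₂ _ (sm e0) (i (m1 σ) fun ω => (t ω _ _ fun s B k => ?_).2 σ σ' h)
    rw [js_under] at k
    refine ⟨?_, hM ω s B k⟩
    simp only [Par.inp0, Par.D0, map_mul, hφ.exp, map_neg, map_sub, hT s B k, hd s B k, he s B k,
      e0 B k]
  refine ⟨fun s => ?_, fun σ σ' h => ?_⟩
  · simp only [Par.init, rbK, js_ne hD, map_add]
    congr 1
    · rw [rb0, rb0, map_mul, js_under, js_under]
      refine congrArg₂ _ (sm (he s)) (i (m0 s) fun ω => (t ω _ _ fun s B k => ?_).1 s)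
      rw [js_under] at k
      exact ⟨hT s B k, hM ω s B k⟩
    · split_ifs
      · rw [map_mul, r1 _ _ (js_cst hD s)]
        exact congrArg (· * _) (sm (hd s))
      · exact (map_zero φ).symm
  · simp only [Par.init, rbN, js_nn hD h]
    split_ifs
    exacts [r1 σ σ' h, (map_zero φ).symm]

theorem js_mono {p : Par.Pre} {φ b b' z z' Θ Θ' ω ω' β π} {U V : Finset P}
    (h : Par.Rel p φ b b' z z' Θ Θ' ω ω' β π V) (k : U ⊆ V) :
    Par.Rel p φ b b' z z' Θ Θ' ω ω' β π U :=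
  ⟨fun s B a => h.1 s B (k a), fun s X a => h.2.1 s X (a.trans k),
    fun X σ σ' a => h.2.2 X σ σ' (a.trans k)⟩

theorem js_same (h_tra : S_tra) (hm : S_j_meas) {q : Par} {t0 : ℝ} {m : Measure ℝ} {μ : Measure Om}
    {p : Par.Pre} (hL : 1 ≤ q.L) (hp : q.PreS t0 m p) {b : ℕ × ℕ} (hb : Par.ok b 0)
    {U : Finset P} (hU : Pm (q.m b 0) U) {φ : ℂ →+* ℂ} (hφ : JsHom φ)
    {Ψ : Om → Om} (hΨ : MeasurePreserving Ψ μ μ)
    {z z' : ℂ} {Θ Θ' : Fld} (hR : ∀ ω, Par.Rel p φ b b z z' Θ Θ' (Ψ ω) ω id id U)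
    (he : ∀ s, ∀ B ∈ U, q.e0 μ p b s B = φ (q.e0 μ p b s B))
    (hd : ∀ s, ∀ B ∈ U, q.d0 μ p b s B = φ (q.d0 μ p b s B))
    (hI : ∀ s, ∀ B ∈ U, q.Ih b 0 z' (p.lam s) B Θ' = φ (q.Ih b 0 z (p.lam s) B Θ)) :
    (∀ s, ((q.init μ p).a b z').K s U Θ' = φ (((q.init μ p).a b z).K s U Θ)) ∧
    ∀ σ, ((q.init μ p).a b z').N U σ Θ' = φ (((q.init μ p).a b z).N U σ Θ) := by
  have := js_pre h_tra hm hL hp hb hU (.refl _) (.refl _) hφ hΨ (fun _ _ => .rfl) (by simp) rfl hR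
    he hd hI
  simp only [Equiv.coe_refl, image_id, id] at this
  exact ⟨this.1, fun σ => this.2 σ σ (by simp)⟩

theorem js_loc {q : Par} {μ : Measure Om} [SFinite μ] {b : ℕ × ℕ} {U : Finset P}
    (hU : U ⊆ box (q.m b 0)) {F : Fld → Om → ℂ} (h : q.Loc0 U F) (c : ℂ) :
    Loc (q.n b) (q.l 0) U fun Θ => c * ∫ ω, F Θ ω ∂μ := by
  refine ⟨(h.1.stronglyMeasurable.integral_prod_right').measurable.const_mul c, fun Θ Ξ e => ?_⟩
  refine congrArg (c * ·) (integral_congr_ae (.of_forall fun ω =>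
    h.2 Θ Ξ ω ω fun y hy => ⟨e y ?_, fun _ => rfl⟩))
  obtain ⟨B, hB, k⟩ := mem_biUnion.1 hy
  refine mem_inter.2 ⟨mem_biUnion.2 ⟨B, hB, ?_⟩, jg_n q b ▸ jg_fat_sqr (hU hB) k⟩
  rw [jg_fat] at k
  simp only [nb, fat, jg_l, mem_product, mem_Icc]
  omega

theorem js_sym (h_tra : S_tra) (h_zel : S_zel) (h_e0 : S_e0) (hm : S_j_meas) (q : Par) (t0 : ℝ)
    (m : Measure ℝ) [IsProbabilityMeasure m] (p : Par.Pre) (hL : 100 ≤ q.L) (hε : 0 ≤ q.ε)
    (hs : m.map (fun x => -x) = m) (hp : q.PreS t0 m p)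
    (hK : ∀ b s X, Par.ok b 0 → Pm (q.m b 0) X →
      Hol (q.n b) (q.l 0) q.h (q.L * q.h) t0 X fun z => ((q.init (mu0 m) p).a b z).K s X)
    (hN : ∀ b X σ, Par.ok b 0 → Pm (q.m b 0) X →
      Hol (q.n b) (q.l 0) q.h (q.L * q.h) t0 X fun z => ((q.init (mu0 m) p).a b z).N X σ) :
    q.Str t0 0 (q.init (mu0 m) p) := by
  have L1 : 1 ≤ q.L := by omega
  have := js_prob m
  obtain ⟨n1, n2⟩ := (h_zel.2 100 1 0 le_rfl le_rfl).2.2.2.2 m hs
  have ei : ∀ b s B, Par.ok b 0 → B ∈ box (q.m b 0) → (q.e0 (mu0 m) p b s B).im = 0 :=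
    fun b s B hb hB => by
      have : (∫ ω, En (cf (zw (q.n b) ω)) (cell q.L B) ∂mu0 m).im = 0 := (h_e0 q m b B hL hb hB).1
      simp [Par.e0, this]
  have di : ∀ b s B, Par.ok b 0 → B ∈ box (q.m b 0) → (q.d0 (mu0 m) p b s B).im = 0 :=
    fun b s B hb hB => by
      unfold Par.d0
      split_ifs
      · rw [Par.D0, Complex.sub_im, ei b s B hb hB, ei b 0 B hb hB, sub_zero]
      · exact Complex.ofReal_im _
  have sh := fun b z X Θ (c : ℂ) hb (hX : Pm (q.m b 0) X) => js_same h_tra hm L1 hp hb hX js_id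
    (.id (mu0 m)) (fun ω => js_mono (hp.sh b z Θ ω c hb) hX.1) (fun _ _ _ => rfl)
    (fun _ _ _ => rfl) fun s B _ => gp_Ih_shift q b 0 z _ B Θ c
  have ng := fun b z X Θ hb (hX : Pm (q.m b 0) X) => js_same h_tra hm L1 hp hb hX js_id n1
    (z := z) (z' := -z) (Θ := Θ) (Θ' := -Θ)
    (fun ω => by simpa using js_mono (hp.neg b z Θ (-ω) hb) hX.1) (fun _ _ _ => rfl)
    (fun _ _ _ => rfl) fun s B _ => gp_Ih_neg q b 0 z _ B Θ
  have cj := fun b X Θ hb (hX : Pm (q.m b 0) X) => js_same h_tra hm L1 hp hb hX js_conj n2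
    (z := 0) (z' := 0) (Θ := Θ) (Θ' := fun y => conj (Θ y))
    (fun ω => by
      have := js_mono (hp.cj b Θ (fun i => if i.1 < 4 then -ω i else ω i) hb) hX.1
      rwa [show (fun i : ℕ × P => if i.1 < 4 then -(if i.1 < 4 then -ω i else ω i) else
        if i.1 < 4 then -ω i else ω i) = ω from funext fun i => by split_ifs <;> simp] at this)
    (fun s B k => (Complex.conj_eq_iff_im.2 (ei b s B hb (hX.1 k))).symm)
    (fun s B k => (Complex.conj_eq_iff_im.2 (di b s B hb (hX.1 k))).symm)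
    fun s B _ => gp_Ih_conj q b 0 _ B Θ
  have fr := fun b z X Θ hb (hX : Pm (q.m b 0) X) (k : ¬ spec (q.m b 0) X) =>
    js_same h_tra hm L1 hp hb hX js_id (.id (mu0 m)) (fun ω => hp.far b z Θ ω X hb hX.1 k)
      (fun _ _ _ => rfl) (fun _ _ _ => rfl)
      fun s B hB => gp_Ih_far q (fun h => k (jg_ab_spec hB h)) z _ Θ
  have ie : ∀ b b' g c s B, Par.ok b 0 → Par.ok b' 0 → B ∈ box (q.m b 0) →
      Mv (q.m b 0) (q.m b' 0) g c {B} →
      q.e0 (mu0 m) p b' (pm g c s) (fm g c B) = q.e0 (mu0 m) p b s B :=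
    fun b b' g c s B hb hb' hB k => by
      obtain ⟨Ψ, -, -, a⟩ := hp.iso b b' g c hb hb'
      rw [Par.e0, Par.e0, T.lam_pm hp.lam12,
        (a {B} (singleton_subset_iff.2 hB) k).1 s B (mem_singleton_self B)]
      exact congrArg (fun x => _ * x - _) ((h_e0 q m b B hL hb hB).2.2.2 b' g c hb' k)
  have id : ∀ b b' g c s B, Par.ok b 0 → Par.ok b' 0 → B ∈ box (q.m b 0) →
      Mv (q.m b 0) (q.m b' 0) g c {B} →
      q.d0 (mu0 m) p b' (pm g c s) (fm g c B) = q.d0 (mu0 m) p b s B :=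
    fun b b' g c s B hb hb' hB k => by
      have e := ie b b' g c 0 B hb hb' hB k
      rw [T.pm_zero] at e
      rw [Par.d0, Par.d0, if_neg (T.Mv_corner (mem_singleton_self B) hB k.2.1),
        if_neg (T.Mv_corner (mem_image_of_mem _ (mem_singleton_self B))
          ((k.1 B ⟨B, mem_singleton_self B, T.nr_refl _ _⟩).1 hB) k.2.2), Par.D0, Par.D0, e,
        ie b b' g c s B hb hb' hB k]
  have is := fun b b' g c X Θ hb hb' (hX : Pm (q.m b 0) X)
      (k : Mv (q.m b 0) (q.m b' 0) g c X) =>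
    have a := (hp.iso b b' g c hb hb').choose_spec
    have o := fun B (h : B ∈ X) => T.Mv_mono k (singleton_subset_iff.2 h)
    js_pre h_tra hm L1 hp hb hX (T.fE g c) (T.pE g c) js_id a.1 (T.nr_fm 1 g c) (T.Mv_near k)
      (by rw [T.pE_coe, T.pm_zero]) (z := 0) (z' := 0) (Θ := Θ ∘ vm g (smul q.L c)) (Θ' := Θ)
      (fun ω => by rw [T.pE_coe]; exact (a.2.2 X hX.1 k).2 Θ ω)
      (fun s B h => by rw [T.pE_coe]; exact ie b b' g c s B hb hb' (hX.1 h) (o B h))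
      (fun s B h => by rw [T.pE_coe]; exact id b b' g c s B hb hb' (hX.1 h) (o B h))
      fun s B _ => by rw [T.pE_coe, T.lam_pm hp.lam12, ← jg_l]; exact gp_Ih_vm q b b' 0 _ g c B Θ
  exact
  { locK := fun b z s X hb hX => by
      obtain ⟨m0, m1⟩ := hm q t0 m (mu0 m) p b z X L1 hp hb hX
      have a := js_loc (μ := mu0 m) hX.1 (m0 s)
        (Complex.exp (∑ B ∈ under 1 X, q.e0 (mu0 m) p b s B))
      have c := js_loc (μ := mu0 m) hX.1 (m1 (cst (box (q.m b 0)) X s))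
        (Complex.exp (∑ B ∈ under 1 X, q.e0 (mu0 m) p b 0 B))
      simp only [Par.init, rbK]
      split_ifs
      · exact ⟨a.1.add (c.1.const_mul (Complex.exp (∑ B ∈ X, q.d0 (mu0 m) p b s B))),
          fun Θ Ξ e => congrArg₂ (· + ·) (a.2 Θ Ξ e)
            (congrArg (Complex.exp (∑ B ∈ X, q.d0 (mu0 m) p b s B) * ·) (c.2 Θ Ξ e))⟩
      · exact ⟨a.1.add_const _, fun Θ Ξ e => congrArg (· + 0) (a.2 Θ Ξ e)⟩
    locN := fun b z X σ hb hX => by
      simp only [Par.init, rbN]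
      split_ifs
      · exact js_loc (μ := mu0 m) hX.1 ((hm q t0 m (mu0 m) p b z X L1 hp hb hX).2 σ)
          (Complex.exp (∑ B ∈ under 1 X, q.e0 (mu0 m) p b 0 B))
      · exact ⟨measurable_const, fun _ _ _ => rfl⟩
    holK := hK
    holN := hN
    hold := fun _ _ _ _ _ _ _ _ _ _ => differentiableOn_const _
    shK := fun b z s X Θ c hb hX => (sh b z X Θ c hb hX).1 s
    shN := fun b z X σ Θ c hb hX => (sh b z X Θ c hb hX).2 σ
    negK := fun b z s X Θ hb hX => (ng b z X Θ hb hX).1 s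
    negN := fun b z X σ Θ hb hX => (ng b z X Θ hb hX).2 σ
    negd := fun _ _ _ _ _ _ => rfl
    cjK := fun b s X Θ hb hX => (cj b X Θ hb hX).1 s
    cjN := fun b X σ Θ hb hX => (cj b X Θ hb hX).2 σ
    cjd := di
    farK := fun b z s X hb hX k => funext fun Θ => (fr b z X Θ hb hX k).1 s
    farN := fun b z X σ hb hX k => funext fun Θ => (fr b z X Θ hb hX k).2 σ
    fard := fun _ _ _ _ _ _ _ => rfl
    isoK := fun b b' g c s X Θ hb hb' hX k => by
      have := (is b b' g c X Θ hb hb' hX k).1 s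
      rwa [T.pE_coe, ← jg_l] at this
    isoN := fun b b' g c X σ σ' Θ hb hb' hX k e => by
      have := (is b b' g c X Θ hb hb' hX k).2 σ σ' (by rw [T.pE_coe]; exact e)
      rwa [← jg_l] at this
    isod := id
    lam12 := hp.lam12
    d0 := fun b z B => by simp [Par.init, Par.d0, Par.D0, Par.clamp, hε] }

end Pool.Agent.Lib.MP_9cc147_pr.Cx
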