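import Pool.Agent.Lib.MP_9cc147_pr.Cx.J.Bnd
import Pool.Agent.Lib.MP_9cc147_pr.Cx.J.Tgpre
import Pool.Agent.Lib.MP_9cc147_pr.Cx.J.Sym
import Pool.Agent.Lib.MP_9cc147_pr.Cx.J.Gau
import Pool.Agent.Lib.MP_9cc147_pr.Cx.J.Id
import Pool.Agent.Lib.MP_9cc147_pr.Cx.J.Meas
import Pool.Agent.Lib.MP_9cc147_pr.Cx.J.Lw
import Pool.Agent.Lib.MP_9cc147_pr.Cx.G.Clo
import Pool.Agent.Lib.MP_9cc147_pr.Cx.G.Inp
import Pool.Agent.Lib.MP_9cc147_pr.Cx.T.Hol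

/-! The state at scale 0. -/

open scoped Classical Topology ComplexConjugate
open Finset MeasureTheory ProbabilityTheory Filter

noncomputable section
namespace Pool.Agent.Lib.MP_9cc147_pr.Cx

theorem jt_clo (O : Set ℂ) : Clo fun (_ : Finset P) (f : ℂ → ℂ) => DifferentiableOn ℂ f O :=
  ⟨fun c => differentiableOn_const c, fun _ _ _ _ h => h, fun _ _ _ h h' => h.add h',
    fun _ _ _ _ _ h h' => h.mul h'⟩

theorem jt_l (q : Par) : q.l 0 = q.L := pow_one _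

variable {q : Par} {t0 : ℝ} {m : Measure ℝ} [IsProbabilityMeasure m] {p : Par.Pre}
  {β1 β2 ν ρ : ℝ} {y : ℕ × ℕ → P → Om → ℝ} {b : ℕ × ℕ} {U : Finset P}

/-- the integrands are holomorphic along holomorphic paths -/
theorem jt_diff (hc : S_g_clo) (S : q.PreS t0 m p) (μ : Measure Om) (hU : Pm (q.m b 0) U)
    {O : Set ℂ} {zf : ℂ → ℂ} {F : ℂ → Fld} (hz : DifferentiableOn ℂ zf O)
    (hF : ∀ x, DifferentiableOn ℂ (fun τ => F τ x) O) (ω : Om) :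
    (∀ s, DifferentiableOn ℂ (fun τ => q.G0 μ p b (zf τ) U s (F τ) ω) O) ∧
    ∀ σ, DifferentiableOn ℂ (fun τ => q.G1 μ p b (zf τ) U σ (F τ) ω) O := by
  have hT : ∀ s B, DifferentiableOn ℂ (fun τ => q.It0 μ p b (zf τ) (F τ) s B) O :=
    fun s B => (gp_Ih_diff q hz hF b 0 (p.lam s) B).const_mul _
  have hM : ∀ s B, DifferentiableOn ℂ (fun τ => (q.inp0 μ p b (zf τ) (F τ)).M ω s B) O :=
    fun s B => ((S.holI b ω s B O zf F hz hF).div (hT s B)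
      fun τ _ => ja_It0 q μ p b _ _ s B).sub_const 1
  have hK : ∀ s X, DifferentiableOn ℂ (fun τ => (q.inp0 μ p b (zf τ) (F τ)).K ω s X) O :=
    fun s X => (S.holK b ω s X O zf F hz hF).div (DifferentiableOn.fun_finsetProd fun B _ => hT s B)
      fun τ _ => prod_ne_zero_iff.2 fun B _ => ja_It0 q μ p b _ _ s B
  refine ⟨fun s => DifferentiableOn.const_mul ?_ _, fun σ => DifferentiableOn.const_mul ?_ _⟩
  · exact (hc ℂ _ 1 0 _ U (fun τ => (q.inp0 μ p b (zf τ) (F τ)).It)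
      (fun τ => (q.inp0 μ p b (zf τ) (F τ)).M ω) (fun τ => (q.inp0 μ p b (zf τ) (F τ)).K ω)
      (fun τ => (q.inp0 μ p b (zf τ) (F τ)).N ω) (jt_clo O) le_rfl hU.1 hU.2.1
      (fun s B _ => hT s B) (fun s B _ => hM s B) (fun s X _ _ => hK s X)).1 s
  · exact (hc ℂ _ 1 0 _ U (fun τ s B => Complex.exp (-(q.inp0 μ p b (zf τ) (F τ)).d s B) *
        (q.inp0 μ p b (zf τ) (F τ)).It s B)
      (fun τ => (q.inp0 μ p b (zf τ) (F τ)).M ω) (fun τ => (q.inp0 μ p b (zf τ) (F τ)).K ω)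
      (fun τ => (q.inp0 μ p b (zf τ) (F τ)).N ω) (jt_clo O) le_rfl hU.1 hU.2.1
      (fun s B _ => (hT s B).const_mul (Complex.exp (-(q.d0 μ p b s B - q.D0 μ p b s B))))
      (fun s B _ => hM s B) (fun s X _ _ => hK s X)).2
      (fun X σ _ _ => S.holN b ω X σ O zf F hz hF) σ

theorem jt_hol (J : JC q t0 m p β1 β2 ν ρ y) (N : JN q) (h_one : S_one) (h_e0 : S_e0)
    (hg : S_j_gau) (hb : Par.ok b 0) (hU : Pm (q.m b 0) U) :
    (∀ s, Hol (q.n b) q.L q.h (q.L * q.h) t0 U fun z Θ =>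
      ∫ ω, q.G0 (mu0 m) p b z U s Θ ω ∂mu0 m) ∧
    ∀ σ, Hol (q.n b) q.L q.h (q.L * q.h) t0 U fun z Θ =>
      ∫ ω, q.G1 (mu0 m) p b z U σ Θ ω ∂mu0 m := by
  have hc := t_g_clo h_one
  have hm := t_j_meas hc
  have hF : ∀ {θ : P → ℝ} {O : Set ℂ} {zf : ℂ → ℂ} {vf : ℂ → Fld}, DifferentiableOn ℂ zf O →
      (∀ x, DifferentiableOn ℂ (fun s => vf s x) O) →
      ∀ x, DifferentiableOn ℂ (fun τ => (bg (q.n b) (zf τ) + cf θ + vf τ) x) O :=
    fun hz hv x => ((hz.mul_const _).add_const _).add (hv x)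
  refine ⟨fun s θ hθ O zf vf hO hz hv hs => ?_, fun σ θ hθ O zf vf hO hz hv hs => ?_⟩
  · refine t_T_hol (mu0 m) O (fun τ => q.G0 (mu0 m) p b (zf τ) U s _) hO
      (fun τ _ => (jb_meas hm J hb hU _ _).1 s)
      (fun ω => (jt_diff hc J.S (mu0 m) hU hz (hF hz hv) ω).1 s) fun τ0 h0 =>
      ⟨_, (J.B.yint b U hb hU.1).1.const_mul (jb0 q p β1 β2 θ U s), ?_⟩
    filter_upwards [hO.mem_nhds h0] with τ hτ ω
    exact J.maj0 N h_one h_e0 t_j_lw hg ⟨hb, (hs τ hτ).1, hθ, hU, (hs τ hτ).2⟩ s ω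
  · refine t_T_hol (mu0 m) O (fun τ => q.G1 (mu0 m) p b (zf τ) U σ _) hO
      (fun τ _ => (jb_meas hm J hb hU _ _).2 σ)
      (fun ω => (jt_diff hc J.S (mu0 m) hU hz (hF hz hv) ω).2 σ) fun τ0 h0 =>
      ⟨_, (J.B.yint b U hb hU.1).1.const_mul (jb1 q ν ρ b θ U σ), ?_⟩
    filter_upwards [hO.mem_nhds h0] with τ hτ ω
    exact J.maj1 N h_e0 t_j_lw hg ⟨hb, (hs τ hτ).1, hθ, hU, (hs τ hτ).2⟩ σ ω

theorem jt_holK (J : JC q t0 m p β1 β2 ν ρ y) (N : JN q) (h_one : S_one) (h_e0 : S_e0)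
    (hg : S_j_gau) (s : Lab) (hb : Par.ok b 0) (hU : Pm (q.m b 0) U) :
    Hol (q.n b) (q.l 0) q.h (q.L * q.h) t0 U fun z => ((q.init (mu0 m) p).a b z).K s U := by
  obtain ⟨h0, h1⟩ := jt_hol J N h_one h_e0 hg hb hU
  rw [jt_l]
  intro θ hθ O zf vf hO hz hv hs
  show DifferentiableOn ℂ (fun τ => rbK (mu0 m) 1 0 (box (q.m b 0))
    (q.inp0 (mu0 m) p b (zf τ) (bg (q.n b) (zf τ) + cf θ + vf τ)) s U) O
  simp only [rbK, ju_rb0, ju_rb1]
  refine (h0 s θ hθ O zf vf hO hz hv hs).add ?_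
  split_ifs
  · exact (h1 _ θ hθ O zf vf hO hz hv hs).const_mul
      (Complex.exp (∑ B ∈ U, q.d0 (mu0 m) p b s B))
  · exact differentiableOn_const _

theorem jt_holN (J : JC q t0 m p β1 β2 ν ρ y) (N : JN q) (h_one : S_one) (h_e0 : S_e0)
    (hg : S_j_gau) (σ : P → Option Lab) (hb : Par.ok b 0) (hU : Pm (q.m b 0) U) :
    Hol (q.n b) (q.l 0) q.h (q.L * q.h) t0 U fun z => ((q.init (mu0 m) p).a b z).N U σ := by
  obtain ⟨-, h1⟩ := jt_hol J N h_one h_e0 hg hb hU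
  rw [jt_l]
  intro θ hθ O zf vf hO hz hv hs
  show DifferentiableOn ℂ (fun τ => rbN (mu0 m) 1 0 (box (q.m b 0))
    (q.inp0 (mu0 m) p b (zf τ) (bg (q.n b) (zf τ) + cf θ + vf τ)) U σ) O
  simp only [rbN, ju_rb1]
  split_ifs
  · exact h1 _ θ hθ O zf vf hO hz hv hs
  · exact differentiableOn_const _

theorem jt_strip (n l : ℕ) (h : ℝ) {h' : ℝ} (h0 : 0 ≤ h') (X : Finset P) : Strip n l h h' X 0 :=
  ⟨fun B _ => by simp [Nf, n1, n2, dg, sq_nonneg], fun _ _ _ => rfl, 0, fun _ => rfl,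
    fun _ _ => by simpa using h0⟩

theorem jt_K (J : JC q t0 m p β1 β2 ν ρ y) (N : JN q) (h_one : S_one) (h_e0 : S_e0)
    (hg : S_j_gau) (s : Lab) (hb : Par.ok b 0) (hU : Pm (q.m b 0) U) {z : ℂ} (hz : ‖z‖ ≤ t0)
    {β : ℝ} (h0 : β2 ≤ β) (h1 : β ≤ β1)
    (he : ∀ θ v, JA q t0 b z θ U v → ∀ ω, ∀ B ∈ U,
      ‖q.Er p b z (bg (q.n b) z + cf θ + v) s B ω‖ ≤ β * (y b B ω * q.gT θ B)) :
    q.BdJ b 0 z U (((q.init (mu0 m) p).a b z).K s U) (q.C * β) := by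
  unfold Par.BdJ
  rw [jt_l]
  intro θ hθ v hv
  have a : JA q t0 b z θ U v := ⟨hb, hz, hθ, hU, hv⟩
  exact J.bK N h_one h_e0 t_j_lw hg (t_j_meas (t_g_clo h_one)) a s h0 h1 (he θ v a)

theorem t_init (h_u : S_u) (h_tra : S_tra) (h_one : S_one) (h_reb : S_reb) (h_cnt : S_cnt)
    (h_ind : S_ind) (h_zel : S_zel) (h_e0 : S_e0) : S_init := by
  have hg := t_j_gau h_u h_e0 h_zel
  have hm := t_j_meas (t_g_clo h_one)
  filter_upwards [ju_JN h_cnt, fp_L 100, fp_A fun _ => 1, fp_κ (fun _ _ => 1) fun _ _ => one_pos,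
    fp_h fun _ _ _ => 0,
    fp_C fun L A κ h => 4 * A * (4 + 10 ^ 4 / κ ^ 2 * Real.exp (L ^ 2 + h ^ 2)),
    fp_C fun L _ κ h => (4 * (18 + 2 * (10 ^ 4 / κ ^ 2 * Real.exp (L ^ 2 + h ^ 2)) ^ 2)) ^ 2,
    fp_ε (fun _ _ κ _ _ => if 0 < κ then κ / 100 else 1) fun _ _ κ _ _ => by
      split_ifs <;> positivity,
    fp_ε (fun L _ _ _ _ => ((L : ℝ) ^ 2 + 1)⁻¹) fun _ _ _ _ _ => by positivity]
    with q N hL hA hκ hh hC hC' hε hε'
  intro t0 m _ p β1 β2 ν ρ y _ ht hneg hS hB hb2 hb21 hb1 hν hρ hνρ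
  have J : JC q t0 m p β1 β2 ν ρ y :=
    ⟨hL.2, hκ.1, hκ.2, hA, hC, hC', by simpa [hκ.1] using hε.2, by
      have := (le_inv_mul_iff₀ (by positivity : 0 < (q.L : ℝ) ^ 2 + 1)).1
        (hε'.2.trans_eq (mul_one _).symm)
      nlinarith [hε.1], ht, hneg, hS, hB, hb2, hb21, hb1, hν, hρ, hνρ⟩
  have hz : ∀ b z s X, (fun Θ => ((q.init (mu0 m) p).a b z).K s X Θ - (zero.a b z).K s X Θ) =
      ((q.init (mu0 m) p).a b z).K s X := fun b z s X => funext fun Θ => sub_zero _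
  refine ⟨js_sym h_tra h_zel h_e0 hm q t0 m p hL.2 hε.1.le hneg hS
      (fun b s X hb hX => jt_holK J N h_one h_e0 hg s hb hX)
      (fun b X σ hb hX => jt_holN J N h_one h_e0 hg σ hb hX),
    ⟨fun s => ?_, fun b z s X hb hz hX => jt_K J N h_one h_e0 hg s hb hX hz hb21 le_rfl
      fun θ v a ω B hB => J.er1 a s hB ω, fun b z X σ hb hz hX => ?_,
      fun b z s B hb _ hB => J.d0 h_e0 hb hB s⟩,
    fun s b hb z X hzt hX hV => ?_, fun _ hI hc s b hb z X hzt hX _ => ?_,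
    fun b z θ hb hzt hθ hd => ?_⟩
  · show |p.lam s| ≤ _
    rw [abs_of_nonneg (hB.lam s).1]
    exact (hB.lam s).2.1.trans (le_mul_of_one_le_left (hb2.trans hb21) (by linarith [J.C0, J.C1]))
  · unfold Par.BdJ
    rw [jt_l]
    exact fun θ hθ v hv => J.bN N h_e0 t_j_lw hg hm ⟨hb, hz, hθ, hX, hv⟩ σ
  · rw [hz]
    refine jt_K J N h_one h_e0 hg s hb hX hzt le_rfl hb21 fun θ v a ω B hB => ?_
    have := J.er a s hB ω
    rwa [if_pos (mem_filter.1 (hV hB)).2] at this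
  · rw [hz]
    refine jt_K J N h_one h_e0 hg s hb hX hzt le_rfl hb21 fun θ v a ω B hB => ?_
    have : q.Er p b z (bg (q.n b) z + cf θ + v) s B ω = 0 := by
      unfold Par.Er
      rw [hI, hc, Complex.ofReal_one, div_one]
      exact sub_self _
    rw [this, norm_zero]
    exact mul_nonneg hb2 (J.Y0 θ ω B)
  · refine t_j_id (t_g_inp h_reb h_ind) hm q t0 m p b z _ hL.2 hS hb (fun U hU => ?_) hd
    have a : JA q t0 b z θ U 0 := ⟨hb, hzt, hθ, hU, jt_strip _ _ _ (by positivity) U⟩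
    have hne : ∀ s, (∏ B ∈ U, Complex.exp (q.e0 (mu0 m) p b s B)) ≠ 0 :=
      fun s => prod_ne_zero_iff.2 fun _ _ => Complex.exp_ne_zero _
    refine ⟨fun s => ?_, fun σ => ?_⟩
    · have := J.int0 N h_one h_e0 t_j_lw hg hm a s
      rw [add_zero] at this
      exact (integrable_const_mul_iff (hne s).isUnit _).1 this
    · have := (J.int1 N h_e0 t_j_lw hg hm a σ).1
      rw [add_zero] at this
      exact (integrable_const_mul_iff (hne 0).isUnit _).1 this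

end Pool.Agent.Lib.MP_9cc147_pr.Cx
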