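import Pool.Agent.Lib.MP_9cc147_pr.Cx.J.Meas
import Pool.Agent.Lib.MP_9cc147_pr.Cx.J.Gau
import Pool.Agent.Lib.MP_9cc147_pr.Cx.G.Clo
import Pool.Agent.Lib.MP_9cc147_pr.Cx.G.Dom

/-! Continuity of the first state in a parameter. -/

open scoped Classical Topology ComplexConjugate
open Finset MeasureTheory ProbabilityTheory Filter

noncomputable section
namespace Pool.Agent.Lib.MP_9cc147_pr.Cx

section dom
variable {T : Type} [TopologicalSpace T] {τ0 : T} {y : P → Om → ℝ} {S : Finset P}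

theorem jc_dom (hy : ∀ B ω, 1 ≤ y B ω) {F : T × Om → ℂ} (g : T → ℝ) (hg : Continuous g)
    (hm : ∀ τ, Measurable fun ω => F (τ, ω)) (hc : ∀ ω, Continuous fun τ => F (τ, ω))
    (hb : ∀ τ ω, ‖F (τ, ω)‖ ≤ g τ * ∏ B ∈ S, y B ω) : Dom τ0 y S F := by
  refine ⟨hm, hc, |g τ0| + 1, by positivity, ?_⟩
  have h := (hg.tendsto τ0).eventually (eventually_le_nhds (lt_add_one (g τ0)))
  refine h.mono fun τ k ω => (hb τ ω).trans (mul_le_mul_of_nonneg_right ?_
    (prod_nonneg fun B _ => zero_le_one.trans (hy B ω)))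
  linarith [le_abs_self (g τ0)]

theorem jc_div (hy : ∀ B ω, 1 ≤ y B ω) {F : T × Om → ℂ} (hF : Dom τ0 y S F) {f : T → ℂ}
    (hf : Continuous f) (h0 : ∀ τ, f τ ≠ 0) : Dom τ0 y S fun x => F x / f x.1 := by
  obtain ⟨hc, h1, -⟩ := t_g_dom T τ0 y hy
  have := hc.mul S ∅ _ _ (disjoint_empty_right _) hF (h1 _ (hf.inv₀ h0))
  simpa only [union_empty, div_eq_mul_inv, Pi.inv_apply] using this

theorem jc_sub (hy : ∀ B ω, 1 ≤ y B ω) {F : T × Om → ℂ} (hF : Dom τ0 y S F) :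
    Dom τ0 y S fun x => F x - 1 := by
  obtain ⟨hc, -, -⟩ := t_g_dom T τ0 y hy
  simpa only [sub_eq_add_neg] using
    hc.add S _ _ hF (hc.mono _ _ _ (empty_subset _) (hc.const (-1)))
end dom

theorem jc_Ih (q : Par) (b : ℕ × ℕ) {lam : ℝ} (l0 : 0 ≤ lam) (l1 : lam ≤ q.κ) (B : P)
    (Θ Ξ : Fld) : ‖q.Ih b 0 0 lam B (Θ + Ξ)‖ ≤ Real.exp (q.κ * ∑ x ∈ cell q.L B, n1 Θ x) *
      Real.exp (q.κ * ∑ x ∈ cell q.L B, n1 Ξ x) := by
  rw [gp_Ih_zero, ← Real.exp_add, jg_l]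
  refine (Complex.norm_exp_le_exp_norm _).trans (Real.exp_le_exp.2 ?_)
  have nl : ‖-(lam / 2 : ℂ)‖ = lam / 2 := by
    rw [norm_neg, norm_div, Complex.norm_real, Real.norm_of_nonneg l0]; simp
  have h1 := jgau_En_le Θ (cell q.L B)
  have h2 := jgau_En_le Ξ (cell q.L B)
  have h3 := jgau_B_le Θ Ξ (cell q.L B)
  have h4 : ‖En (Θ + Ξ) (cell q.L B)‖ ≤
      2 * (∑ x ∈ cell q.L B, n1 Θ x + ∑ x ∈ cell q.L B, n1 Ξ x) := by
    rw [jgau_En_add]
    refine (norm_add_le _ _).trans ((add_le_add_right (norm_add_le _ _) _).trans ?_)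
    linarith
  rw [norm_mul, nl, ← mul_add]
  calc _ ≤ q.κ / 2 * (2 * (∑ x ∈ cell q.L B, n1 Θ x + ∑ x ∈ cell q.L B, n1 Ξ x)) :=
        mul_le_mul (by linarith) h4 (norm_nonneg _) (by linarith)
    _ = _ := by ring

section main
variable {q : Par} {T : Type} [TopologicalSpace T] {t0 : ℝ} {m : Measure ℝ} {p : T → Par.Pre}
  {β1 β2 ν ρ : ℝ} {y : ℕ × ℕ → P → Om → ℝ} {b : ℕ × ℕ}

theorem jc_e0 (H : ∀ τ, q.PreB t0 m (p τ) β1 β2 ν ρ y) (hC : Par.PreC p) (hb : Par.ok b 0)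
    (μ : Measure Om) (s : Lab) {B : P} (hB : B ∈ box (q.m b 0)) :
    Continuous fun τ => q.e0 μ (p τ) b s B :=
  (((Complex.continuous_ofReal.comp (hC.lam s)).div_const _).mul continuous_const).sub
    (Complex.continuous_ofReal.comp ((hC.c b s B).log fun τ => ((H τ).cpos b s B hb hB).ne'))

theorem jc_D0 (H : ∀ τ, q.PreB t0 m (p τ) β1 β2 ν ρ y) (hC : Par.PreC p) (hb : Par.ok b 0)
    (μ : Measure Om) (s : Lab) {B : P} (hB : B ∈ box (q.m b 0)) :
    Continuous fun τ => q.D0 μ (p τ) b s B :=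
  (jc_e0 H hC hb μ s hB).sub (jc_e0 H hC hb μ 0 hB)

theorem jc_d0 (H : ∀ τ, q.PreB t0 m (p τ) β1 β2 ν ρ y) (hC : Par.PreC p) (hb : Par.ok b 0)
    (μ : Measure Om) (s : Lab) {B : P} (hB : B ∈ box (q.m b 0)) :
    Continuous fun τ => q.d0 μ (p τ) b s B := by
  unfold Par.d0
  split_ifs
  · exact jc_D0 H hC hb μ s hB
  · exact Complex.continuous_ofReal.comp (continuous_const.max (continuous_const.min
      (Complex.continuous_re.comp (jc_D0 H hC hb μ s hB))))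

theorem jc_It (H : ∀ τ, q.PreB t0 m (p τ) β1 β2 ν ρ y) (hC : Par.PreC p) (hb : Par.ok b 0)
    (μ : Measure Om) (Θ : Fld) (s : Lab) {B : P} (hB : B ∈ box (q.m b 0)) :
    Continuous fun τ => q.It0 μ (p τ) b 0 Θ s B :=
  (jc_e0 H hC hb μ s hB).neg.cexp.mul
    (((Complex.continuous_ofReal.comp (hC.lam s)).div_const _).neg.mul continuous_const).cexp

theorem jc_rb [FirstCountableTopology T] (h_one : S_one) (k0 : 0 < q.κ) (ek : q.ε ≤ q.κ)
    (ht : 0 < t0) (H : ∀ τ, q.PreS t0 m (p τ) ∧ q.PreB t0 m (p τ) β1 β2 ν ρ y)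
    (b21 : β2 ≤ β1) (b1 : β1 ≤ q.ε) (hC : Par.PreC p) (hb : Par.ok b 0) {U : Finset P}
    {θ : P → ℝ} {v : Fld} (hU : Pm (q.m b 0) U) (hθ : Dir (q.n b) θ)
    (hv : Strip (q.n b) (q.l 0) q.h (q.L * q.h) U v) :
    (∀ s, Continuous fun τ =>
      rb0 (mu0 m) 1 0 (box (q.m b 0)) (q.inp0 (mu0 m) (p τ) b 0 (cf θ + v)) s U) ∧
    ∀ σ, Continuous fun τ =>
      rb1 (mu0 m) 1 0 (box (q.m b 0)) (q.inp0 (mu0 m) (p τ) b 0 (cf θ + v)) U σ := by
  have HB := fun τ => (H τ).2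
  rw [jg_l] at hv
  have bd := fun τ ω => (HB τ).bd b 0 θ U v ω hb (by simpa using ht.le) hθ hU hv
  simp only [jg_bg_zero, zero_add] at bd
  set μ := mu0 m with hμ
  set Θ := cf θ + v with hΘ
  have hE : ∀ s, Continuous fun τ => Complex.exp (∑ B ∈ under 1 U, q.e0 μ (p τ) b s B) := fun s =>
    (continuous_finsetSum _ fun B hB => jc_e0 HB hC hb μ s (hU.1 (jm_under U ▸ hB))).cexp
  have key : ∀ τ0 : T, (∀ s, ContinuousAt (fun τ => ∫ ω, q.F0 μ (p τ) b 0 U s Θ ω ∂μ) τ0) ∧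
      ∀ σ, ContinuousAt (fun τ => ∫ ω, q.F1 μ (p τ) b 0 U σ Θ ω ∂μ) τ0 := by
    intro τ0
    have hy : ∀ B ω, 1 ≤ y b B ω := fun B ω => le_trans (Real.one_le_exp
      (mul_nonneg k0.le (sum_nonneg fun x _ => jg_n1_nonneg _ x))) ((HB τ0).ylow b B ω)
    obtain ⟨hc, h1, h2⟩ := t_g_dom T τ0 (y b) hy
    have hi := ((HB τ0).yint b (near 0 (reg 1 (box (q.m b 0)) U) (under 1 U)) hb
      ((jm_near _ _).trans ((jm_under U).symm ▸ hU.1))).1
    have hI := fun s B (hB : B ∈ U) => jc_It HB hC hb μ Θ s (hU.1 hB)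
    have n0 : ∀ τ s B, q.It0 μ (p τ) b 0 Θ s B ≠ 0 := fun τ s B =>
      mul_ne_zero (Complex.exp_ne_zero _) (Complex.exp_ne_zero _)
    have hM : ∀ s, ∀ B ∈ under 1 U, Dom τ0 (y b) {B}
        fun x => (q.inp0 μ (p x.1) b 0 Θ).M x.2 s B := by
      intro s B hB
      rw [jm_under] at hB
      refine jc_sub hy (F := fun x => (p x.1).I b 0 Θ x.2 s B / q.It0 μ (p x.1) b 0 Θ s B)
        (jc_div hy (F := fun x => (p x.1).I b 0 Θ x.2 s B)
        (f := fun τ => q.It0 μ (p τ) b 0 Θ s B) (jc_dom hy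
        (fun τ => (p τ).c b s B * (β1 * Real.exp (q.κ / 4 * ∑ x ∈ cell q.L B, n1 (cf θ) x) +
          Real.exp (q.κ * ∑ x ∈ cell q.L B, n1 Θ x))) ((hC.c b s B).mul continuous_const)
        (fun τ => ((H τ).1.locI b 0 s B hb (hU.1 hB)).1.comp measurable_prodMk_left)
        (fun ω => hC.I b Θ ω s B) fun τ ω => ?_) (hI s B hB) fun τ => n0 τ s B)
      have c0 := (HB τ).cpos b s B hb (hU.1 hB)
      have y0 := zero_le_one.trans (hy B ω)
      have a1 := (bd τ ω).1 s B hB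
      have a2 := (jc_Ih q b ((HB τ).lam s).1 (((HB τ).lam s).2.1.trans (b1.trans ek)) B Θ
        (cf (zw (q.n b) ω))).trans
          (mul_le_mul_of_nonneg_left ((HB τ).ylow b B ω) (Real.exp_pos _).le)
      have a3 : (if deep 1 (q.m b 0) B then β2 else β1) ≤ β1 := by
        split_ifs
        · exact b21
        · exact le_rfl
      have a4 := norm_add_le_of_le (a1.trans (mul_le_mul_of_nonneg_right
        (mul_le_mul_of_nonneg_right a3 y0) (Real.exp_pos _).le)) a2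
      rw [sub_add_cancel, norm_div, Complex.norm_real, Real.norm_of_nonneg c0.le,
        div_le_iff₀ c0] at a4
      rw [prod_singleton]
      exact a4.trans_eq (by ring)
    have hK : ∀ s X, Conn X → X ⊆ near 0 (reg 1 (box (q.m b 0)) U) (under 1 U) →
        Dom τ0 (y b) X fun x => (q.inp0 μ (p x.1) b 0 Θ).K x.2 s X := by
      intro s X hX hs
      have hXU : X ⊆ U := by simpa only [jm_under] using hs.trans (jm_near _ _)
      refine jc_div hy (F := fun x => (p x.1).K b 0 Θ x.2 s X) (jc_dom hy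
        (fun τ => β2 * q.A⁻¹ ^ (2 * X.card) * (∏ B ∈ X, (p τ).c b s B) *
          Real.exp (q.κ / 4 * ∑ x ∈ under q.L X, n1 (cf θ) x))
        (((continuous_finsetProd _ fun B _ => hC.c b s B).const_mul _).mul continuous_const)
        (fun τ => ((H τ).1.locK b 0 s X hb ⟨hXU.trans hU.1, hX⟩).1.comp measurable_prodMk_left)
        (fun ω => hC.K b Θ ω s X) fun τ ω => ((bd τ ω).2.1 s X hXU hX).trans_eq ?_)
        (f := fun τ => ∏ B ∈ X, q.It0 μ (p τ) b 0 Θ s B)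
        (continuous_finsetProd _ fun B hB => hI s B (hXU hB))
        fun τ => prod_ne_zero_iff.2 fun B _ => n0 τ s B
      rw [prod_mul_distrib]; ring
    have hN : ∀ X σ, Conn X → X ⊆ under 1 U →
        Dom τ0 (y b) X fun x => (q.inp0 μ (p x.1) b 0 Θ).N x.2 X σ := by
      intro X σ hX hXU
      rw [jm_under] at hXU
      refine jc_dom hy (F := fun x => (p x.1).N b 0 Θ x.2 X σ)
        (fun τ => ν * q.A⁻¹ ^ (2 * X.card) * (∏ B ∈ X, (p τ).c b 0 B) *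
          Real.exp (q.κ / 4 * ∑ x ∈ under q.L X, n1 (cf θ) x))
        (((continuous_finsetProd _ fun B _ => hC.c b 0 B).const_mul _).mul continuous_const)
        (fun τ => ((H τ).1.locN b 0 X σ hb ⟨hXU.trans hU.1, hX⟩).1.comp measurable_prodMk_left)
        (fun ω => hC.N b Θ ω X σ) fun τ ω => ((bd τ ω).2.2 X σ hXU hX).trans_eq ?_
      rw [prod_mul_distrib]; ring
    refine ⟨fun s => (h2 μ _ _ ((t_g_clo h_one (T × Om) _ 1 0 (box (q.m b 0)) U
      (fun x => (q.inp0 μ (p x.1) b 0 Θ).It) (fun x => (q.inp0 μ (p x.1) b 0 Θ).M x.2)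
      (fun x => (q.inp0 μ (p x.1) b 0 Θ).K x.2) (fun x => (q.inp0 μ (p x.1) b 0 Θ).N x.2)
      hc le_rfl hU.1 hU.2.1 (fun s B hB => h1 _ (hI s B (jm_under U ▸ hB))) hM hK).1 s) hi).2
        inferInstance, fun σ => (h2 μ _ _ ((t_g_clo h_one (T × Om) _ 1 0 (box (q.m b 0)) U
      (fun x s B => Complex.exp (-(q.inp0 μ (p x.1) b 0 Θ).d s B) *
        (q.inp0 μ (p x.1) b 0 Θ).It s B) (fun x => (q.inp0 μ (p x.1) b 0 Θ).M x.2)
      (fun x => (q.inp0 μ (p x.1) b 0 Θ).K x.2) (fun x => (q.inp0 μ (p x.1) b 0 Θ).N x.2)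
      hc le_rfl hU.1 hU.2.1 (fun s B hB => ?_) hM hK).2 hN σ) hi).2 inferInstance⟩
    rw [jm_under] at hB
    exact h1 _ (((jc_d0 HB hC hb μ s (hU.1 hB)).sub (jc_D0 HB hC hb μ s (hU.1 hB))).neg.cexp.mul
      (hI s B hB))
  exact ⟨fun s => (hE s).mul (continuous_iff_continuousAt.2 fun τ => (key τ).1 s),
    fun σ => (hE 0).mul (continuous_iff_continuousAt.2 fun τ => (key τ).2 σ)⟩
end main

theorem t_initC (h_one : S_one) : S_initC := by
  filter_upwards [fp_κ (fun _ _ => 1) fun _ _ => one_pos,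
    fp_ε (fun _ _ κ _ _ => if 0 < κ then κ else 1) fun _ _ κ _ _ => by split_ifs <;> positivity]
    with q hκ hε T _ _ t0 m _ p β1 β2 ν ρ y ht _ H _ b21 b1 _ _ _ hC
  have ek : q.ε ≤ q.κ := by simpa only [if_pos hκ.1] using hε.2
  have HB := fun τ => (H τ).2
  refine ⟨hC.lam, fun b s B hb hB => jc_d0 HB hC hb _ s hB, fun b s X θ v hb hX hθ hv => ?_,
    fun b X σ θ v hb hX hθ hv => ?_⟩
  · obtain ⟨r0, r1⟩ := jc_rb h_one hκ.1 ek ht H b21 b1 hC hb hX hθ hv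
    refine (r0 s).add ?_
    split_ifs
    · exact (continuous_finsetSum _ fun B hB => jc_d0 HB hC hb _ s (hX.1 hB)).cexp.mul (r1 _)
    · exact continuous_const
  · obtain ⟨-, r1⟩ := jc_rb h_one hκ.1 ek ht H b21 b1 hC hb hX hθ hv
    show Continuous fun τ => if Nn (box (q.m b 0)) X σ then _ else 0
    split_ifs
    · exact r1 σ
    · exact continuous_const

end Pool.Agent.Lib.MP_9cc147_pr.Cx
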